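import Pool.Agent.Helper57.PC.AP

/-! Choice functions correlated with almost periodic functions. -/

namespace Pool.Agent.Helper57.PC

open Finset Filter Topology
open Pool.Agent.Helper25.RC (repF rep below mem_below below_subset_range repF_below_le)

/-- scales with few representations on average -/
lemma exists_scales {A : Set ℕ} (h : ¬ MeanSqInf A) : ∃ K : ℝ, 0 < K ∧ ∃ F : Filter ℕ,
    NeBot F ∧ F ≤ atTop ∧ ∀ᶠ x in F, En (below A x) x ≤ K * x := by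
  unfold MeanSqInf at h
  rw [tendsto_atTop] at h
  push Not at h
  obtain ⟨b, hb⟩ := h
  have hb2 : ∃ᶠ x : ℕ in atTop, ∑ n ∈ range x, (rep A n : ℝ) ^ 2 ≤ |b| * x ∧ 2 ≤ x := by
    refine (hb.and_eventually (eventually_ge_atTop 2)).mono fun x hx => ⟨?_, hx.2⟩
    have hx0 : (0 : ℝ) < x := by
      have : 0 < x := by omega
      exact_mod_cast this
    have h1 := hx.1
    rw [div_lt_iff₀ hx0] at h1
    exact h1.le.trans (mul_le_mul_of_nonneg_right (le_abs_self b) hx0.le)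
  have ht : Tendsto (fun x : ℕ => x / 2) atTop atTop := by
    rw [tendsto_atTop]
    intro B
    filter_upwards [eventually_ge_atTop (2 * B)] with x hx
    omega
  have hfr : ∃ᶠ y : ℕ in atTop, En (below A y) y ≤ (3 * |b| + 1) * y := by
    refine ht.frequently (hb2.mono fun x hx => ?_)
    have h1 : En (below A (x / 2)) (x / 2) ≤ ∑ n ∈ range x, (rep A n : ℝ) ^ 2 := by
      unfold En
      refine (Finset.sum_le_sum fun n _ => ?_).trans (Finset.sum_le_sum_of_subset_of_nonneg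
        (f := fun n => (rep A n : ℝ) ^ 2) (t := range x) ?_ fun _ _ _ => sq_nonneg _)
      · have : (repF (below A (x / 2)) n : ℝ) ≤ rep A n := by
          exact_mod_cast repF_below_le A (x / 2) n
        exact pow_le_pow_left₀ (Nat.cast_nonneg _) this 2
      · intro n hn
        rw [mem_range] at hn ⊢
        omega
    have h2 : (x : ℝ) ≤ 3 * ((x / 2 : ℕ) : ℝ) := by
      have h3 := hx.2
      have : x ≤ 3 * (x / 2) := by omega
      exact_mod_cast this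
    have h4 : (0 : ℝ) ≤ ((x / 2 : ℕ) : ℝ) := Nat.cast_nonneg _
    calc En (below A (x / 2)) (x / 2) ≤ |b| * x := h1.trans hx.1
      _ ≤ |b| * (3 * ((x / 2 : ℕ) : ℝ)) := mul_le_mul_of_nonneg_left h2 (abs_nonneg _)
      _ ≤ _ := by nlinarith
  refine ⟨3 * |b| + 1, by positivity, atTop ⊓ 𝓟 {y : ℕ | En (below A y) y ≤ (3 * |b| + 1) * y},
    ?_, inf_le_left, ?_⟩
  · exact frequently_mem_iff_neBot.1 hfr
  · exact mem_inf_of_right (mem_principal_self _)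

/-- The general criterion: infinitely many characters of the first summand correlated with bounded
functions of the sum whose products are almost periodic. -/
theorem meanSqInf_of_weights (A : Set ℕ) {δ : ℝ} (hδ : 0 < δ) (Ψ : Set Fr) (hΨ : Ψ.Infinite)
    (h : Fr → ℕ → ℂ)
    (hap : ∀ ψ ∈ Ψ, ∀ ψ' ∈ Ψ, BAP (fun n => (starRingEnd ℂ) (h ψ n) * h ψ' n))
    (hb : ∀ ψ ∈ Ψ, ∀ n, ‖h ψ n‖ ≤ 1)
    (v : ℕ → ℕ → ℕ → ℂ) (hv : ∀ x a b, ‖v x a b‖ ≤ 1)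
    (hcor : ∀ ψ ∈ Ψ, ∀ᶠ x : ℕ in atTop, δ * x ≤ ‖∑ p ∈ below A x ×ˢ below A x,
      v x p.1 p.2 * (ch p.1 ψ * (starRingEnd ℂ) (h ψ (p.1 + p.2)))‖) : MeanSqInf A := by
  by_contra hA
  obtain ⟨K, hK, F, hF, hFt, hE⟩ := exists_scales hA
  exact core A F hFt hK hδ hE Ψ hΨ h hap hb v hv fun ψ hψ => hFt (hcor ψ hψ)

open Classical in
/-- sums over a choice function as sums over pairs -/
lemma choice_sum (A : Set ℕ) (D : Set ℕ) (f : ℕ → ℕ)
    (hf : ∀ n ∈ D, f n ≤ n ∧ f n ∈ A ∧ n - f n ∈ A) (x : ℕ) (F : ℕ → ℕ → ℂ) :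
    ∑ p ∈ below A x ×ˢ below A x, (if p.1 + p.2 < x ∧ p.1 + p.2 ∈ D ∧ p.1 = f (p.1 + p.2)
      then (1 : ℂ) else 0) * F p.1 (p.1 + p.2) = ∑ n ∈ range x with n ∈ D, F (f n) n := by
  simp_rw [ite_mul, one_mul, zero_mul]
  rw [← Finset.sum_filter]
  refine Finset.sum_nbij' (fun p => p.1 + p.2) (fun n => (f n, n - f n)) ?_ ?_ ?_ ?_ ?_
  · intro p hp
    rw [mem_filter, mem_product] at hp
    rw [mem_filter, mem_range]
    exact ⟨hp.2.1, hp.2.2.1⟩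
  · intro n hn
    rw [mem_filter, mem_range] at hn
    obtain ⟨h1, h2, h3⟩ := hf n hn.2
    rw [mem_filter, mem_product, mem_below, mem_below]
    simp only
    rw [Nat.add_sub_cancel' h1]
    exact ⟨⟨⟨by omega, h2⟩, ⟨by omega, h3⟩⟩, hn.1, hn.2, rfl⟩
  · intro p hp
    rw [mem_filter, mem_product] at hp
    ext
    · exact hp.2.2.2.symm
    · simp only
      have h1 := hp.2.2.2
      omega
  · intro n hn
    rw [mem_filter, mem_range] at hn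
    obtain ⟨h1, h2, h3⟩ := hf n hn.2
    exact Nat.add_sub_cancel' h1
  · intro p hp
    rw [mem_filter, mem_product] at hp
    rw [← hp.2.2.2]

open Classical in
/-- The criterion for choice functions. -/
theorem meanSqInf_of_choice (A : Set ℕ) (D : Set ℕ) (f : ℕ → ℕ)
    (hf : ∀ n ∈ D, f n ≤ n ∧ f n ∈ A ∧ n - f n ∈ A) {δ : ℝ} (hδ : 0 < δ) (Ψ : Set Fr)
    (hΨ : Ψ.Infinite) (h : Fr → ℕ → ℂ)
    (hap : ∀ ψ ∈ Ψ, ∀ ψ' ∈ Ψ, BAP (fun n => (starRingEnd ℂ) (h ψ n) * h ψ' n))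
    (hb : ∀ ψ ∈ Ψ, ∀ n, ‖h ψ n‖ ≤ 1)
    (hcor : ∀ ψ ∈ Ψ, ∀ᶠ x : ℕ in atTop, δ * x ≤
      ‖∑ n ∈ range x with n ∈ D, ch (f n) ψ * (starRingEnd ℂ) (h ψ n)‖) : MeanSqInf A := by
  refine meanSqInf_of_weights A hδ Ψ hΨ h hap hb
    (fun x a b => if a + b < x ∧ a + b ∈ D ∧ a = f (a + b) then (1 : ℂ) else 0) (fun x a b => ?_)
    fun ψ hψ => ?_
  · split_ifs
    · rw [norm_one]
    · rw [norm_zero]
      exact zero_le_one
  · filter_upwards [hcor ψ hψ] with x hx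
    rw [choice_sum A D f hf x (fun a n => ch a ψ * (starRingEnd ℂ) (h ψ n))]
    exact hx

/-- `e(t) = exp(2πit)` -/
noncomputable def e (t : ℝ) : ℂ := Complex.exp (2 * Real.pi * Complex.I * t)

/-- Besicovitch almost periodic sequences (mean square approximation by trigonometric
polynomials) -/
def AlmostPeriodic (g : ℕ → ℂ) : Prop :=
  ∀ ε : ℝ, 0 < ε → ∃ (Θ : Finset ℝ) (c : ℝ → ℂ), ∀ᶠ x : ℕ in atTop,
    ∑ n ∈ range x, ‖g n - ∑ θ ∈ Θ, c θ * e (θ * n)‖ ^ 2 ≤ ε * x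

lemma ch_eq_e (n : ℕ) (t : ℝ) : ch n (t : Fr) = e (t * n) := by
  rw [ch_coe]
  unfold e
  congr 1
  push_cast
  ring

lemma AlmostPeriodic.bap {g : ℕ → ℂ} (hg : AlmostPeriodic g) : BAP g := by
  classical
  intro ε hε
  obtain ⟨Θ, c, h⟩ := hg ε hε
  refine ⟨Θ.image fun θ : ℝ => (θ : Fr),
    fun φ => ∑ θ ∈ Θ.filter (fun θ : ℝ => (θ : Fr) = φ), c θ, ?_⟩
  filter_upwards [h] with x hx
  refine le_trans (le_of_eq (Finset.sum_congr rfl fun n _ => ?_)) hx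
  have e1 : tp (Θ.image fun θ : ℝ => (θ : Fr))
      (fun φ => ∑ θ ∈ Θ.filter (fun θ : ℝ => (θ : Fr) = φ), c θ) n =
      ∑ θ ∈ Θ, c θ * e (θ * n) := by
    unfold tp
    have e2 : ∀ φ ∈ Θ.image (fun θ : ℝ => (θ : Fr)),
        (∑ θ ∈ Θ.filter (fun θ : ℝ => (θ : Fr) = φ), c θ) * ch n φ =
          ∑ θ ∈ Θ.filter (fun θ : ℝ => (θ : Fr) = φ), c θ * e (θ * n) := by
      intro φ _
      rw [Finset.sum_mul]
      refine Finset.sum_congr rfl fun θ hθ => ?_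
      rw [← ch_eq_e, (mem_filter.1 hθ).2]
    rw [Finset.sum_congr rfl e2,
      Finset.sum_fiberwise_of_maps_to fun θ hθ => mem_image_of_mem _ hθ]
  rw [e1]

lemma lift_coe {t : ℝ} (ht : t ∈ Set.Ico (0 : ℝ) 1) : lift (t : Fr) = t := by
  unfold lift
  rw [AddCircle.equivIco_coe_eq (by simpa using ht)]

open Classical in
/-- The criterion for choice functions, real frequencies. -/
theorem meanSqInf_of_correlated_choice (A : Set ℕ) (D : Set ℕ) (f : ℕ → ℕ)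
    (hf : ∀ n ∈ D, f n ≤ n ∧ f n ∈ A ∧ n - f n ∈ A) {δ : ℝ} (hδ : 0 < δ)
    (hcor : {ψ : ℝ | 0 ≤ ψ ∧ ψ < 1 ∧ ∃ h : ℕ → ℂ, (∀ n, ‖h n‖ ≤ 1) ∧ AlmostPeriodic h ∧
      ∀ᶠ x : ℕ in atTop, δ * x ≤
        ‖∑ n ∈ range x with n ∈ D, e (ψ * f n) * (starRingEnd ℂ) (h n)‖}.Infinite) :
    MeanSqInf A := by
  set Ψ := {ψ : ℝ | 0 ≤ ψ ∧ ψ < 1 ∧ ∃ h : ℕ → ℂ, (∀ n, ‖h n‖ ≤ 1) ∧ AlmostPeriodic h ∧
      ∀ᶠ x : ℕ in atTop, δ * x ≤
        ‖∑ n ∈ range x with n ∈ D, e (ψ * f n) * (starRingEnd ℂ) (h n)‖} with hΨ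
  have hch : ∀ ψ : ℝ, ∃ h : ℕ → ℂ, ψ ∈ Ψ → (∀ n, ‖h n‖ ≤ 1) ∧ AlmostPeriodic h ∧
      ∀ᶠ x : ℕ in atTop, δ * x ≤
        ‖∑ n ∈ range x with n ∈ D, e (ψ * f n) * (starRingEnd ℂ) (h n)‖ := by
    intro ψ
    by_cases h : ψ ∈ Ψ
    · obtain ⟨g, hg⟩ := h.2.2
      exact ⟨g, fun _ => hg⟩
    · exact ⟨0, fun h' => absurd h' h⟩
  choose g hg using hch
  have hlift : ∀ ψ ∈ Ψ, lift (ψ : Fr) = ψ := fun ψ hψ => lift_coe ⟨hψ.1, hψ.2.1⟩
  refine meanSqInf_of_choice A D f hf hδ ((fun ψ : ℝ => (ψ : Fr)) '' Ψ) ?_ (fun φ => g (lift φ))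
    ?_ ?_ ?_
  · refine hcor.image fun ψ hψ ψ' hψ' he => ?_
    have := congrArg lift he
    rwa [hlift ψ hψ, hlift ψ' hψ'] at this
  · rintro _ ⟨ψ, hψ, rfl⟩ _ ⟨ψ', hψ', rfl⟩
    rw [hlift ψ hψ, hlift ψ' hψ']
    exact BAP.conj_mul (hg ψ hψ).1 (hg ψ hψ).2.1.bap (hg ψ' hψ').2.1.bap
  · rintro _ ⟨ψ, hψ, rfl⟩ n
    rw [hlift ψ hψ]
    exact (hg ψ hψ).1 n
  · rintro _ ⟨ψ, hψ, rfl⟩
    rw [hlift ψ hψ]
    refine (hg ψ hψ).2.2.mono fun x hx => ?_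
    simp_rw [ch_eq_e]
    exact hx

lemma norm_e (t : ℝ) : ‖e t‖ = 1 := by
  unfold e
  rw [show (2 * Real.pi * Complex.I * t : ℂ) = ((2 * Real.pi * t : ℝ) : ℂ) * Complex.I by
    push_cast; ring]
  exact Complex.norm_exp_ofReal_mul_I _

lemma norm_sum_unit (P : Finset ℕ) (ψ : ℝ) (f : ℕ → ℕ) :
    ‖∑ n ∈ P, e (ψ * f n) * (starRingEnd ℂ) (e (ψ * f n))‖ = #P := by
  have e2 : ∀ n ∈ P, e (ψ * f n) * (starRingEnd ℂ) (e (ψ * f n)) = 1 := by
    intro n _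
    rw [Complex.mul_conj', norm_e]
    simp
  rw [Finset.sum_congr rfl e2, Finset.sum_const, nsmul_eq_mul, mul_one, Complex.norm_natCast]

open Classical in
lemma Ico_subset_filter (D : Set ℕ) (t x : ℕ) (hD : ∀ n, t ≤ n → n ∈ D) :
    Finset.Ico t x ⊆ {n ∈ range x | n ∈ D} := by
  intro n hn
  rw [Finset.mem_Ico] at hn
  rw [mem_filter, mem_range]
  exact ⟨hn.2, hD n hn.1⟩

/-- Almost periodic choice: if `f` is a choice function of a basis and `e(ψ f(n))` is almost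
periodic for infinitely many `ψ` modulo one, the mean square of the number of representations is
unbounded. -/
theorem meanSqInf_of_almostPeriodic (A : Set ℕ) (f : ℕ → ℕ) (t : ℕ)
    (hf : ∀ n ≥ t, f n ≤ n ∧ f n ∈ A ∧ n - f n ∈ A)
    (h : {ψ : ℝ | 0 ≤ ψ ∧ ψ < 1 ∧ AlmostPeriodic (fun n => e (ψ * f n))}.Infinite) :
    MeanSqInf A := by
  classical
  refine meanSqInf_of_correlated_choice A {n | t ≤ n} f hf (δ := 1 / 2) (by norm_num)
    (h.mono ?_)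
  rintro ψ ⟨h0, h1, h2⟩
  refine ⟨h0, h1, fun n => e (ψ * f n), fun n => (norm_e _).le, h2, ?_⟩
  filter_upwards [eventually_ge_atTop (2 * t)] with x hx
  refine le_trans ?_ (le_of_eq (norm_sum_unit _ ψ f).symm)
  have e4 : x - t ≤ #(Finset.Ico t x) := by rw [Nat.card_Ico]
  have e5 : x ≤ 2 * #(Finset.Ico t x) := by omega
  have e6 : (x : ℝ) ≤ 2 * (#(Finset.Ico t x) : ℝ) := by exact_mod_cast e5
  have e7 : 1 / 2 * (x : ℝ) ≤ (#(Finset.Ico t x) : ℝ) := by linarith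
  exact e7.trans (Nat.cast_le.2 (card_le_card (Ico_subset_filter _ t x fun n h => h)))

end Pool.Agent.Helper57.PC
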