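import Pool.Agent.Helper57.PC.Fin
import Pool.Agent.Helper25.RC.Defs

/-! MP_12a1af_nt: summands whose residues can be guessed from the residues of the sum.
Asymptotic consequences. -/

namespace Pool.Agent.Helper57.PC

open Finset Filter Pool.Agent.Helper25.RC

lemma R_eq_repF (S : Finset ℕ) (n : ℕ) : R S n = (repF S n : ℝ) := by
  unfold R repF
  rw [Finset.sum_ite, Finset.sum_const_zero, add_zero, Finset.sum_const, nsmul_eq_mul, mul_one]

/-- number of pairs of elements of `S` whose first residue modulo `j` is `φ` of the residue of the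
sum modulo `l` -/
def guess (S : Finset ℕ) (j l : ℕ) (φ : ℕ → ℕ) : ℕ :=
  #{p ∈ S ×ˢ S | p.1 ≡ φ ((p.1 + p.2) % l) [MOD j]}

lemma G_eq_guess (S : Finset ℕ) (j l : ℕ) (φ : ℕ → ℕ) : G S j l φ = (guess S j l φ : ℝ) := by
  unfold G guess
  rw [Finset.sum_ite, Finset.sum_const_zero, add_zero, Finset.sum_const, nsmul_eq_mul, mul_one]
  rfl

/-- The finite inequality: a set with few representations on average cannot have predictable
residues at many levels. -/
theorem sum_guess_le (S : Finset ℕ) (x : ℕ) (hS : S ⊆ range x) (k : ℕ) (j l : ℕ → ℕ)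
    (φ : ℕ → ℕ → ℕ) (hjl : ∀ i < k, 0 < j i ∧ j i ∣ l i ∧ 0 < l i ∧ l i ≤ x)
    (hg : ∀ i, i + 1 < k → 4 * l i ≤ j (i + 1)) :
    ∑ i ∈ range k, guess S (j i) (l i) (φ i) ^ 2 ≤ 9 * x * ∑ n ∈ range (2 * x), repF S n ^ 2 := by
  have h := sum_G_le hS k j l φ hjl hg
  simp_rw [G_eq_guess, R_eq_repF] at h
  exact_mod_cast h

lemma R_le_rep (A : Set ℕ) (x n : ℕ) : R (below A x) n ≤ rep A n := by
  rw [R_eq_repF]
  exact_mod_cast repF_below_le A x n

lemma sum_T_le_rep (A : Set ℕ) (x S : ℕ) (j l : ℕ → ℕ)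
    (hjl : ∀ i < S, 0 < j i ∧ j i ∣ l i ∧ 0 < l i ∧ l i ≤ x)
    (hg : ∀ i, i + 1 < S → 4 * l i ≤ j (i + 1)) :
    ∑ i ∈ range S, l i * L (below A x) x (j i) (l i) ≤
      9 * x * ∑ n ∈ range (2 * x), (rep A n : ℝ) ^ 2 := by
  refine (sum_T_le (below_subset_range A x) S j l hjl hg).trans ?_
  refine mul_le_mul_of_nonneg_left (Finset.sum_le_sum fun n _ => ?_) (by positivity)
  refine pow_le_pow_left₀ ?_ (R_le_rep A x n) 2
  exact Finset.sum_nonneg fun _ _ => by split_ifs <;> norm_num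

/-- mean squares tend to infinity -/
def MeanSqInf (A : Set ℕ) : Prop :=
  Tendsto (fun x : ℕ => (∑ n ∈ range x, (rep A n : ℝ) ^ 2) / x) atTop atTop

/-- the general criterion -/
theorem meanSqInf_of_T (A : Set ℕ) {κ : ℝ} (hκ : 0 < κ)
    (h : ∀ N : ℕ, ∃ j l : ℕ, N ≤ j ∧ j ∣ l ∧ 0 < l ∧
      ∀ᶠ x : ℕ in atTop, κ * (x : ℝ) ^ 2 ≤ l * L (below A x) x j l) : MeanSqInf A := by
  choose J Lf hJ hdvd hpos hev using h
  let s : ℕ → ℕ × ℕ := fun i => Nat.rec (J 1, Lf 1) (fun _ p => (J (4 * p.2), Lf (4 * p.2))) i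
  have hs : ∀ i, ∃ N, 1 ≤ N ∧ s i = (J N, Lf N) := by
    intro i
    induction i with
    | zero => exact ⟨1, le_rfl, rfl⟩
    | succ i ih =>
      obtain ⟨N, _, hN⟩ := ih
      refine ⟨4 * (s i).2, ?_, rfl⟩
      have : 0 < (s i).2 := by rw [hN]; exact hpos N
      omega
  have hgap : ∀ i, 4 * (s i).2 ≤ (s (i + 1)).1 := fun i => hJ (4 * (s i).2)
  have hdv : ∀ i, 0 < (s i).1 ∧ (s i).1 ∣ (s i).2 ∧ 0 < (s i).2 := by
    intro i
    obtain ⟨N, hN1, hN⟩ := hs i
    rw [hN]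
    exact ⟨lt_of_lt_of_le hN1 (hJ N), hdvd N, hpos N⟩
  have hevi : ∀ i, ∀ᶠ x : ℕ in atTop,
      κ * (x : ℝ) ^ 2 ≤ (s i).2 * L (below A x) x (s i).1 (s i).2 := by
    intro i
    obtain ⟨N, _, hN⟩ := hs i
    rw [hN]
    exact hev N
  -- the bound for every number of stages
  have key : ∀ S : ℕ, ∀ᶠ x : ℕ in atTop,
      (S : ℝ) * κ * x / 9 ≤ ∑ n ∈ range (2 * x), (rep A n : ℝ) ^ 2 := by
    intro S
    have h1 : ∀ᶠ x : ℕ in atTop, ∀ i ∈ range S,
        κ * (x : ℝ) ^ 2 ≤ (s i).2 * L (below A x) x (s i).1 (s i).2 ∧ (s i).2 ≤ x := by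
      rw [Filter.eventually_all_finset]
      intro i _
      exact (hevi i).and (Filter.eventually_ge_atTop _)
    filter_upwards [h1, Filter.eventually_gt_atTop 0] with x hx hx0
    have h2 := sum_T_le_rep A x S (fun i => (s i).1) (fun i => (s i).2)
      (fun i hi => ⟨(hdv i).1, (hdv i).2.1, (hdv i).2.2, (hx i (Finset.mem_range.2 hi)).2⟩)
      (fun i _ => hgap i)
    have h3 : ∑ _i ∈ range S, κ * (x : ℝ) ^ 2 ≤
        ∑ i ∈ range S, ((s i).2 : ℝ) * L (below A x) x (s i).1 (s i).2 :=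
      Finset.sum_le_sum fun i hi => (hx i hi).1
    rw [Finset.sum_const, Finset.card_range, nsmul_eq_mul] at h3
    have h4 := h3.trans h2
    have hx1 : (0 : ℝ) < x := by exact_mod_cast hx0
    have h5 : (x : ℝ) * (S * κ * x / 9) ≤ x * ∑ n ∈ range (2 * x), (rep A n : ℝ) ^ 2 := by
      nlinarith
    exact le_of_mul_le_mul_left h5 hx1
  unfold MeanSqInf
  rw [Filter.tendsto_atTop]
  intro C
  obtain ⟨S, hS⟩ := exists_nat_ge (27 * C / κ)
  have hS' : 27 * C ≤ S * κ := by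
    rw [div_le_iff₀ hκ] at hS
    exact hS
  have h1 : Tendsto (fun y : ℕ => y / 2) atTop atTop :=
    Nat.tendsto_div_const_atTop (by norm_num)
  filter_upwards [h1.eventually (key S), Filter.eventually_ge_atTop 2] with y hy hy2
  have hy0 : (0 : ℝ) < y := by exact_mod_cast (by omega : 0 < y)
  rw [le_div_iff₀ hy0]
  have h2 : ∑ n ∈ range (2 * (y / 2)), (rep A n : ℝ) ^ 2 ≤ ∑ n ∈ range y, (rep A n : ℝ) ^ 2 :=
    Finset.sum_le_sum_of_subset_of_nonneg (Finset.range_mono (by omega))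
      fun _ _ _ => sq_nonneg _
  have h3 : (y : ℝ) ≤ 3 * ((y / 2 : ℕ) : ℝ) := by exact_mod_cast (by omega : y ≤ 3 * (y / 2))
  rcases le_or_gt C 0 with hC | hC
  · have : 0 ≤ ∑ n ∈ range y, (rep A n : ℝ) ^ 2 := Finset.sum_nonneg fun _ _ => sq_nonneg _
    nlinarith
  · have hSκ : 0 ≤ (S : ℝ) * κ := by positivity
    calc C * y ≤ (S * κ / 27) * y := by nlinarith
      _ ≤ (S * κ / 27) * (3 * ((y / 2 : ℕ) : ℝ)) := by
          exact mul_le_mul_of_nonneg_left h3 (by positivity)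
      _ = S * κ * ((y / 2 : ℕ) : ℝ) / 9 := by ring
      _ ≤ _ := hy.trans h2

/-- Guessed residues: the guess may depend on `x`. -/
theorem meanSqInf_of_guess (A : Set ℕ) {δ : ℝ} (hδ : 0 < δ)
    (h : ∃ᶠ m : ℕ in atTop, ∃ l : ℕ, 0 < l ∧ ∀ᶠ x : ℕ in atTop, ∃ φ : ℕ → ℕ,
      δ * x ≤ (guess (below A x) m l φ : ℝ)) : MeanSqInf A := by
  refine meanSqInf_of_T A (κ := δ ^ 2) (by positivity) fun N => ?_
  obtain ⟨m, ⟨l, hl, hx⟩, hm⟩ := (h.and_eventually (Filter.eventually_ge_atTop (N + 1))).exists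
  have hm0 : 0 < m := by omega
  refine ⟨m, m * l, by omega, dvd_mul_right _ _, by positivity, ?_⟩
  filter_upwards [hx] with x hx'
  obtain ⟨φ, hφ⟩ := hx'
  rw [← G_eq_guess] at hφ
  have e : G (below A x) m l φ = G (below A x) m (m * l) fun s => φ (s % l) := by
    unfold G
    refine Finset.sum_congr rfl fun p _ => ?_
    beta_reduce
    rw [Nat.mod_mod_of_dvd _ (dvd_mul_left l m)]
  rw [e] at hφ
  have h1 := G_sq_le (below_subset_range A x) (dvd_mul_right m l) (by positivity : 0 < m * l)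
    (fun s => φ (s % l))
  calc δ ^ 2 * (x : ℝ) ^ 2 = (δ * x) ^ 2 := by ring
    _ ≤ _ := pow_le_pow_left₀ (by positivity) hφ 2
    _ ≤ _ := h1

/-- Choices with eventually periodic residues. -/
theorem meanSqInf_of_periodic (A : Set ℕ) (f : ℕ → ℕ) (t : ℕ)
    (hf : ∀ n ≥ t, f n ≤ n ∧ f n ∈ A ∧ n - f n ∈ A)
    (h : ∃ᶠ m : ℕ in atTop, ∃ l : ℕ, 0 < l ∧ ∀ᶠ n : ℕ in atTop, f (n + l) % m = f n % m) :
    MeanSqInf A := by
  refine meanSqInf_of_guess A (δ := 1 / 2) (by norm_num) (h.mono fun m hm => ?_)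
  obtain ⟨l, hl, hn⟩ := hm
  refine ⟨l, hl, ?_⟩
  obtain ⟨t₁, ht₁⟩ := Filter.eventually_atTop.1 hn
  set t' := max t t₁ with ht'
  -- residues of `f` for large `n`
  have hper : ∀ k n, t' ≤ n → f (n + k * l) % m = f n % m := by
    intro k
    induction k with
    | zero => intro n _; simp
    | succ k ih =>
      intro n hn'
      have e : n + (k + 1) * l = (n + k * l) + l := by ring
      rw [e, ht₁ _ (by omega), ih n hn']
  let φ : ℕ → ℕ := fun s => f (t' * l + s)
  have hφ : ∀ n, t' * l ≤ n → f n % m = φ (n % l) % m := by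
    intro n hn'
    have h1 : t' * l + n % l ≤ n := by
      have h2 : n = l * (n / l) + n % l := (Nat.div_add_mod n l).symm
      have h3 : t' ≤ n / l := (Nat.le_div_iff_mul_le hl).2 hn'
      nlinarith [Nat.mul_le_mul_left l h3]
    obtain ⟨k, hk⟩ : ∃ k, n = (t' * l + n % l) + k * l := by
      refine ⟨n / l - t', ?_⟩
      have h2 : n = l * (n / l) + n % l := (Nat.div_add_mod n l).symm
      have h3 : t' ≤ n / l := (Nat.le_div_iff_mul_le hl).2 hn'
      obtain ⟨r, hr⟩ := Nat.exists_eq_add_of_le h3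
      rw [hr] at h2 ⊢
      rw [Nat.add_sub_cancel_left]
      nlinarith
    have h4 : t' ≤ t' * l + n % l := (Nat.le_mul_of_pos_right t' hl).trans (Nat.le_add_right _ _)
    conv_lhs => rw [hk]
    exact hper k _ h4
  filter_upwards [Filter.eventually_ge_atTop (2 * (t' * l + t))] with x hx
  refine ⟨φ, ?_⟩
  -- the pairs `(f n, n - f n)`
  have hinj : Set.InjOn (fun n => (f n, n - f n)) (Set.Ico (t' * l + t) x) := by
    intro n hn' n' hn'' he
    have h1 := hf n (by have := hn'.1; omega)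
    have h2 := hf n' (by have := hn''.1; omega)
    have h3 := congrArg Prod.fst he
    have h4 := congrArg Prod.snd he
    simp only at h3 h4
    omega
  have h5 : #(Finset.Ico (t' * l + t) x) ≤ guess (below A x) m l φ := by
    refine Finset.card_le_card_of_injOn (fun n => (f n, n - f n)) ?_ ?_
    · intro n hn'
      rw [Finset.coe_Ico] at hn'
      have h0 := hn'.1
      have h0' := hn'.2
      have h1 := hf n (by omega)
      rw [Finset.mem_coe, Finset.mem_filter, Finset.mem_product, mem_below, mem_below]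
      refine ⟨⟨⟨?_, h1.2.1⟩, ?_, h1.2.2⟩, ?_⟩
      · show f n < x
        omega
      · show n - f n < x
        omega
      · show f n ≡ φ ((f n + (n - f n)) % l) [MOD m]
        rw [Nat.add_sub_cancel' h1.1]
        exact hφ n (by omega)
    · rw [Finset.coe_Ico]
      exact hinj
  rw [Nat.card_Ico] at h5
  have h7 : x ≤ 2 * (x - (t' * l + t)) := by omega
  have h8 : (x : ℝ) ≤ 2 * ((x - (t' * l + t) : ℕ) : ℝ) := by exact_mod_cast h7
  have h9 : ((x - (t' * l + t) : ℕ) : ℝ) ≤ (guess (below A x) m l φ : ℝ) := by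
    exact_mod_cast h5
  linarith

/-- Cauchy over the residue classes which occur. -/
lemma card_sq_le (A : Finset ℕ) (x m : ℕ) :
    (A.card : ℝ) ^ 2 ≤ (A.image fun a => a % m).card * F A x m x := by
  set I := A.image fun a => a % m with hI
  set N : ℕ → ℝ := fun c => ∑ a ∈ A, if a % m = c then 1 else 0 with hN
  have e1 : ∑ c ∈ I, N c = A.card := by
    simp only [hN]
    rw [Finset.sum_comm]
    have e : ∀ a ∈ A, ∑ c ∈ I, (if a % m = c then (1 : ℝ) else 0) = 1 := by
      intro a ha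
      rw [Finset.sum_eq_single (a % m)]
      · rw [if_pos rfl]
      · intro c _ hc
        rw [if_neg (Ne.symm hc)]
      · intro hc
        exact absurd (Finset.mem_image_of_mem _ ha) hc
    rw [Finset.sum_congr rfl e, Finset.sum_const, nsmul_eq_mul, mul_one]
  have e2 : ∑ c ∈ I, N c ^ 2 = F A x m x := by
    simp only [hN, sq]
    simp_rw [Finset.sum_mul_sum]
    rw [Finset.sum_comm]
    unfold F
    rw [Finset.sum_product]
    refine Finset.sum_congr rfl fun a ha => ?_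
    rw [Finset.sum_comm]
    refine Finset.sum_congr rfl fun b _ => ?_
    rw [Finset.sum_eq_single (a % m)]
    · rw [if_pos rfl, one_mul]
      refine if_congr ?_ rfl rfl
      constructor
      · intro h
        exact Nat.ModEq.add_right x h.symm
      · intro h
        exact (Nat.ModEq.add_right_cancel' x h).symm
    · intro c _ hc
      rw [if_neg (Ne.symm hc), zero_mul]
    · intro hc
      exact absurd (Finset.mem_image_of_mem _ ha) hc
  rw [← e1, ← e2]
  exact sq_sum_le_card_mul_sum_sq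

/-- Thick sets in few residue classes. -/
theorem meanSqInf_of_thin_image (A : Set ℕ) {c K : ℝ} (hc : 0 < c)
    (hA : ∀ᶠ x : ℕ in atTop, c * √(x : ℝ) ≤ ((A ∩ Set.Iio x).ncard : ℝ))
    (h : ∃ᶠ m : ℕ in atTop, (((fun a => a % m) '' A).ncard : ℝ) ≤ K * √(m : ℝ)) :
    MeanSqInf A := by
  refine meanSqInf_of_T A (κ := c ^ 4 / (K ^ 2 + 1)) (by positivity) fun N => ?_
  obtain ⟨m, hm, hmN⟩ := (h.and_eventually (Filter.eventually_ge_atTop (N + 1))).exists
  have hm0 : 0 < m := by omega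
  refine ⟨m, m, by omega, dvd_rfl, hm0, ?_⟩
  filter_upwards [hA] with x hx
  have e0 : (below A x : Set ℕ) = A ∩ Set.Iio x := by
    ext a
    rw [Finset.mem_coe, mem_below]
    exact and_comm
  rw [← e0, Set.ncard_coe_finset] at hx
  set n := ((below A x).card : ℝ) with hn
  set I := (((below A x).image fun a => a % m).card : ℝ) with hI
  have hIK : I ≤ K * √(m : ℝ) := by
    refine le_trans ?_ hm
    have hfin : ((fun a => a % m) '' A).Finite := by
      refine Set.Finite.subset (Set.finite_Iio m) ?_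
      rintro _ ⟨a, _, rfl⟩
      exact Nat.mod_lt _ hm0
    have h1 : (((below A x).image fun a => a % m : Finset ℕ) : Set ℕ).ncard ≤
        ((fun a => a % m) '' A).ncard := by
      refine Set.ncard_le_ncard ?_ hfin
      rw [Finset.coe_image]
      exact Set.image_mono fun a ha => (mem_below.1 ha).2
    rw [Set.ncard_coe_finset] at h1
    rw [hI]
    exact_mod_cast h1
  have h2 : n ^ 2 ≤ I * F (below A x) x m x := card_sq_le _ _ _
  have h3 : F (below A x) x m x ^ 2 ≤ L (below A x) x m m := by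
    have := u_sq_le (A := below A x) (x := x) (dvd_refl m) hm0 x
    unfold u at this
    rwa [if_pos rfl] at this
  have hI0 : 0 ≤ I := Nat.cast_nonneg _
  have hF0 : 0 ≤ F (below A x) x m x := F_nonneg _ _
  have hx0 : 0 ≤ c * √(x : ℝ) := by positivity
  -- fourth powers
  have h4 : c ^ 4 * (x : ℝ) ^ 2 ≤ n ^ 4 := by
    have := pow_le_pow_left₀ hx0 hx 4
    have e : (c * √(x : ℝ)) ^ 4 = c ^ 4 * (x : ℝ) ^ 2 := by
      have h5 : √(x : ℝ) ^ 4 = (x : ℝ) ^ 2 := by
        rw [show (4 : ℕ) = 2 * 2 by norm_num, pow_mul, Real.sq_sqrt (Nat.cast_nonneg _)]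
      rw [mul_pow, h5]
    rwa [e] at this
  have h5 : n ^ 4 ≤ I ^ 2 * F (below A x) x m x ^ 2 := by
    have := pow_le_pow_left₀ (sq_nonneg n) h2 2
    calc n ^ 4 = (n ^ 2) ^ 2 := by ring
      _ ≤ _ := this
      _ = _ := by ring
  have h6 : I ^ 2 ≤ K ^ 2 * m := by
    have := pow_le_pow_left₀ hI0 hIK 2
    rwa [mul_pow, Real.sq_sqrt (Nat.cast_nonneg _)] at this
  have h7 : c ^ 4 * (x : ℝ) ^ 2 ≤ (K ^ 2 + 1) * (m * L (below A x) x m m) := by
    calc c ^ 4 * (x : ℝ) ^ 2 ≤ I ^ 2 * F (below A x) x m x ^ 2 := h4.trans h5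
      _ ≤ (K ^ 2 * m) * L (below A x) x m m :=
          mul_le_mul h6 h3 (sq_nonneg _) (by positivity)
      _ ≤ (K ^ 2 + 1) * (m * L (below A x) x m m) := by
          have : 0 ≤ (m : ℝ) * L (below A x) x m m := mul_nonneg (Nat.cast_nonneg _) (L_nonneg _ _)
          nlinarith
  rw [div_mul_eq_mul_div, div_le_iff₀ (by positivity)]
  linarith

/-- mean squares tending to infinity: the counting function is unbounded -/
lemma MeanSqInf.unbounded {A : Set ℕ} (h : MeanSqInf A) : ∀ B : ℕ, ∃ᶠ n : ℕ in atTop, B < rep A n := by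
  intro B
  by_contra hcon
  rw [Filter.not_frequently] at hcon
  obtain ⟨t, ht⟩ := Filter.eventually_atTop.1 hcon
  set C := ∑ n ∈ range t, (rep A n : ℝ) ^ 2 with hC
  have hb : ∀ x : ℕ, ∑ n ∈ range x, (rep A n : ℝ) ^ 2 ≤ C + x * (B : ℝ) ^ 2 := by
    intro x
    rcases le_total x t with hx | hx
    · have h1 : ∑ n ∈ range x, (rep A n : ℝ) ^ 2 ≤ C :=
        Finset.sum_le_sum_of_subset_of_nonneg (Finset.range_mono hx) fun _ _ _ => sq_nonneg _
      have : (0 : ℝ) ≤ x * (B : ℝ) ^ 2 := by positivity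
      linarith
    · rw [← Finset.sum_range_add_sum_Ico _ hx]
      have h1 : ∑ n ∈ Finset.Ico t x, (rep A n : ℝ) ^ 2 ≤ ∑ _n ∈ Finset.Ico t x, (B : ℝ) ^ 2 := by
        refine Finset.sum_le_sum fun n hn => ?_
        have h2 := ht n (Finset.mem_Ico.1 hn).1
        exact pow_le_pow_left₀ (Nat.cast_nonneg _) (by exact_mod_cast not_lt.1 h2) 2
      rw [Finset.sum_const, Nat.card_Ico, nsmul_eq_mul] at h1
      have h3 : ((x - t : ℕ) : ℝ) ≤ x := by exact_mod_cast Nat.sub_le _ _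
      have h4 := mul_le_mul_of_nonneg_right h3 (sq_nonneg (B : ℝ))
      linarith
  have h1 := (h.eventually_gt_atTop (C + (B : ℝ) ^ 2)).and (Filter.eventually_ge_atTop 1)
  obtain ⟨x, hx, hx1⟩ := h1.exists
  have hx0 : (1 : ℝ) ≤ x := by exact_mod_cast hx1
  have hC0 : 0 ≤ C := Finset.sum_nonneg fun _ _ => sq_nonneg _
  rw [lt_div_iff₀ (by linarith)] at hx
  have := hb x
  nlinarith

end Pool.Agent.Helper57.PC
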