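import Pool.Agent.Helper57.PC.Key
import Pool.Agent.Helper57.PC.Main

/-! Almost periodic choice functions. -/

namespace Pool.Agent.Helper57.PC

open Finset Filter Topology
open Pool.Agent.Helper25.RC (repF rep below mem_below below_subset_range repF_below_le)

/-- Besicovitch almost periodic functions (exponent `2`), frequencies in the circle -/
def BAP (g : ℕ → ℂ) : Prop :=
  ∀ ε : ℝ, 0 < ε → ∃ (Θ : Finset Fr) (c : Fr → ℂ), ∀ᶠ x : ℕ in atTop,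
    ∑ n ∈ range x, ‖g n - tp Θ c n‖ ^ 2 ≤ ε * x

lemma sq_add_le (a b : ℂ) : ‖a + b‖ ^ 2 ≤ 2 * ‖a‖ ^ 2 + 2 * ‖b‖ ^ 2 := by
  have h1 := pow_le_pow_left₀ (norm_nonneg _) (norm_add_le a b) 2
  nlinarith [sq_nonneg (‖a‖ - ‖b‖)]

/-- the coefficients of an approximant -/
lemma coef_le {g : ℕ → ℂ} (hg : ∀ n, ‖g n‖ ≤ 1) {Θ : Finset Fr} {c : Fr → ℂ} {ε : ℝ}
    (hε : ε ≤ 1) (h : ∀ᶠ x : ℕ in atTop, ∑ n ∈ range x, ‖g n - tp Θ c n‖ ^ 2 ≤ ε * x) :
    ∑ θ ∈ Θ, ‖c θ‖ ^ 2 ≤ 4 := by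
  refine le_of_tendsto (tendsto_mean_sq Θ c) ?_
  filter_upwards [h, eventually_gt_atTop 0] with x hx hx0
  have hx0' : (0 : ℝ) < x := by exact_mod_cast hx0
  rw [div_le_iff₀ hx0']
  have h1 : ∑ n ∈ range x, ‖tp Θ c n‖ ^ 2 ≤
      ∑ n ∈ range x, (2 + 2 * ‖g n - tp Θ c n‖ ^ 2) := by
    refine Finset.sum_le_sum fun n _ => ?_
    have e : tp Θ c n = g n + -(g n - tp Θ c n) := by ring
    have h2 := sq_add_le (g n) (-(g n - tp Θ c n))
    rw [← e, norm_neg] at h2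
    have h3 : ‖g n‖ ^ 2 ≤ 1 := pow_le_one₀ (norm_nonneg _) (hg n)
    linarith
  rw [Finset.sum_add_distrib, ← Finset.mul_sum, Finset.sum_const, card_range, nsmul_eq_mul] at h1
  nlinarith

/-- products of trigonometric polynomials -/
lemma tp_conj_mul (Θ₁ : Finset Fr) (c₁ : Fr → ℂ) (Θ₂ : Finset Fr) (c₂ : Fr → ℂ) :
    ∃ (Θ : Finset Fr) (c : Fr → ℂ), ∀ n,
      (starRingEnd ℂ) (tp Θ₁ c₁ n) * tp Θ₂ c₂ n = tp Θ c n := by
  classical
  refine ⟨(Θ₁ ×ˢ Θ₂).image fun p => p.2 - p.1,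
    fun φ => ∑ p ∈ Θ₁ ×ˢ Θ₂ with p.2 - p.1 = φ, (starRingEnd ℂ) (c₁ p.1) * c₂ p.2, fun n => ?_⟩
  unfold tp
  have e : ∀ φ ∈ (Θ₁ ×ˢ Θ₂).image (fun p => p.2 - p.1),
      (∑ p ∈ Θ₁ ×ˢ Θ₂ with p.2 - p.1 = φ, (starRingEnd ℂ) (c₁ p.1) * c₂ p.2) * ch n φ =
      ∑ p ∈ Θ₁ ×ˢ Θ₂ with p.2 - p.1 = φ,
        (starRingEnd ℂ) (c₁ p.1) * c₂ p.2 * ch n (p.2 - p.1) := by
    intro φ _
    rw [Finset.sum_mul]
    refine Finset.sum_congr rfl fun p hp => ?_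
    rw [(mem_filter.1 hp).2]
  rw [Finset.sum_congr rfl e, Finset.sum_fiberwise_of_maps_to fun p hp => mem_image_of_mem _ hp,
    map_sum, Finset.sum_mul_sum, ← Finset.sum_product']
  refine Finset.sum_congr rfl fun p _ => ?_
  rw [ch_sub, map_mul]
  ring

lemma norm_tp_le (Θ : Finset Fr) (c : Fr → ℂ) (n : ℕ) : ‖tp Θ c n‖ ≤ ∑ θ ∈ Θ, ‖c θ‖ := by
  unfold tp
  refine (norm_sum_le _ _).trans (Finset.sum_le_sum fun θ _ => ?_)
  rw [norm_mul, norm_ch, mul_one]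

/-- products of bounded almost periodic functions -/
lemma BAP.conj_mul {g h : ℕ → ℂ} (hg : ∀ n, ‖g n‖ ≤ 1) (Bg : BAP g) (Bh : BAP h) :
    BAP (fun n => (starRingEnd ℂ) (g n) * h n) := by
  intro ε hε
  obtain ⟨Θ₂, c₂, h₂⟩ := Bh (ε / 4) (by positivity)
  set M : ℝ := ∑ θ ∈ Θ₂, ‖c₂ θ‖ with hM
  have hM0 : 0 ≤ M := Finset.sum_nonneg fun _ _ => norm_nonneg _
  obtain ⟨Θ₁, c₁, h₁⟩ := Bg (ε / (4 * (M ^ 2 + 1))) (by positivity)
  obtain ⟨Θ, c, e⟩ := tp_conj_mul Θ₁ c₁ Θ₂ c₂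
  refine ⟨Θ, c, ?_⟩
  filter_upwards [h₁, h₂] with x hx₁ hx₂
  have h3 : ∑ n ∈ range x, ‖(starRingEnd ℂ) (g n) * h n - tp Θ c n‖ ^ 2 ≤
      ∑ n ∈ range x, (2 * ‖h n - tp Θ₂ c₂ n‖ ^ 2 + 2 * M ^ 2 * ‖g n - tp Θ₁ c₁ n‖ ^ 2) := by
    refine Finset.sum_le_sum fun n _ => ?_
    rw [← e n]
    have e2 : (starRingEnd ℂ) (g n) * h n - (starRingEnd ℂ) (tp Θ₁ c₁ n) * tp Θ₂ c₂ n =
        (starRingEnd ℂ) (g n) * (h n - tp Θ₂ c₂ n) +
          (starRingEnd ℂ) (g n - tp Θ₁ c₁ n) * tp Θ₂ c₂ n := by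
      rw [map_sub]
      ring
    rw [e2]
    refine (sq_add_le _ _).trans ?_
    rw [norm_mul, norm_mul, RCLike.norm_conj, RCLike.norm_conj, mul_pow, mul_pow]
    have h4 : ‖g n‖ ^ 2 ≤ 1 := pow_le_one₀ (norm_nonneg _) (hg n)
    have h5 : ‖tp Θ₂ c₂ n‖ ^ 2 ≤ M ^ 2 := pow_le_pow_left₀ (norm_nonneg _) (norm_tp_le _ _ _) 2
    have h6 : ‖g n‖ ^ 2 * ‖h n - tp Θ₂ c₂ n‖ ^ 2 ≤ ‖h n - tp Θ₂ c₂ n‖ ^ 2 :=
      mul_le_of_le_one_left (sq_nonneg _) h4
    have h7 : ‖g n - tp Θ₁ c₁ n‖ ^ 2 * ‖tp Θ₂ c₂ n‖ ^ 2 ≤ ‖g n - tp Θ₁ c₁ n‖ ^ 2 * M ^ 2 :=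
      mul_le_mul_of_nonneg_left h5 (sq_nonneg _)
    nlinarith
  rw [Finset.sum_add_distrib, ← Finset.mul_sum, ← Finset.mul_sum] at h3
  have hx0 : (0 : ℝ) ≤ x := Nat.cast_nonneg _
  have h8 : 2 * M ^ 2 * ∑ n ∈ range x, ‖g n - tp Θ₁ c₁ n‖ ^ 2 ≤ ε / 2 * x := by
    calc 2 * M ^ 2 * ∑ n ∈ range x, ‖g n - tp Θ₁ c₁ n‖ ^ 2 ≤
          2 * M ^ 2 * (ε / (4 * (M ^ 2 + 1)) * x) := mul_le_mul_of_nonneg_left hx₁ (by positivity)
      _ = (M ^ 2 / (M ^ 2 + 1)) * (ε / 2 * x) := by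
          field_simp
          ring
      _ ≤ 1 * (ε / 2 * x) := by
          refine mul_le_mul_of_nonneg_right ?_ (by positivity)
          rw [div_le_one (by positivity)]
          linarith
      _ = _ := one_mul _
  linarith

/-- the number of elements -/
lemma card_sq_le' (S : Finset ℕ) {x : ℕ} (hS : S ⊆ range x) {K : ℝ} (hK : 0 < K)
    (hE : En S x ≤ K * x) : (#S : ℝ) ^ 2 ≤ √(2 * K) * x := by
  have h1 := sum_pairs S hS (fun _ => 1)
  rw [Finset.sum_const, Finset.card_product, nsmul_eq_mul, mul_one] at h1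
  have h2 := Finset.sum_mul_sq_le_sq_mul_sq (range (2 * x)) (fun n => ((repF S n : ℕ) : ℝ))
    (fun _ => (1 : ℝ))
  rw [← h1] at h2
  simp only [one_pow, Finset.sum_const, card_range, nsmul_eq_mul, mul_one] at h2
  have hx : (0 : ℝ) ≤ x := Nat.cast_nonneg _
  refine le_of_pow_le_pow_left₀ (by norm_num : (2 : ℕ) ≠ 0) (by positivity) ?_
  rw [mul_pow, Real.sq_sqrt (by positivity)]
  push_cast at h2
  have h3 : En S x * (2 * x) ≤ K * x * (2 * x) := mul_le_mul_of_nonneg_right hE (by positivity)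
  unfold En at h3
  nlinarith

/-- The main lemma: along a filter of scales at which the mean of the squares of the number of
representations stays bounded, only finitely many characters of the first summand are correlated
with almost periodic functions of the sum. -/
lemma core (A : Set ℕ) (F : Filter ℕ) [NeBot F] (hF : F ≤ atTop) {K δ : ℝ} (hK : 0 < K)
    (hδ : 0 < δ) (hE : ∀ᶠ x in F, En (below A x) x ≤ K * x) (Ψ : Set Fr) (hΨ : Ψ.Infinite)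
    (h : Fr → ℕ → ℂ)
    (hap : ∀ ψ ∈ Ψ, ∀ ψ' ∈ Ψ, BAP (fun n => (starRingEnd ℂ) (h ψ n) * h ψ' n))
    (hb : ∀ ψ ∈ Ψ, ∀ n, ‖h ψ n‖ ≤ 1)
    (v : ℕ → ℕ → ℕ → ℂ) (hv : ∀ x a b, ‖v x a b‖ ≤ 1)
    (hcor : ∀ ψ ∈ Ψ, ∀ᶠ x : ℕ in F, δ * x ≤ ‖∑ p ∈ below A x ×ˢ below A x,
      v x p.1 p.2 * (ch p.1 ψ * (starRingEnd ℂ) (h ψ (p.1 + p.2)))‖) : False := by
  classical
  set U : Ultrafilter ℕ := Ultrafilter.of F with hU
  have hUF : (U : Filter ℕ) ≤ F := Ultrafilter.of_le F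
  have hUt : (U : Filter ℕ) ≤ atTop := hUF.trans hF
  set u : Fr → ℕ → ℝ := fun θ x => ‖hat (below A x) θ‖ ^ 4 / (x : ℝ) ^ 2 with hu
  -- sums of u
  have hsum1 : ∀ Θ : Finset Fr, ∀ᶠ x : ℕ in (U : Filter ℕ), ∑ θ ∈ Θ, u θ x ≤ 53 * K := by
    intro Θ
    filter_upwards [hUt (sum_hat_le Θ), hUF hE, hUt (eventually_gt_atTop 0)] with x hx hxE hx0
    have hx0' : (0 : ℝ) < x := by exact_mod_cast hx0
    have h1 := hx (below A x) (below_subset_range A x)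
    rw [hu, ← Finset.sum_div, div_le_iff₀ (by positivity)]
    refine h1.trans ?_
    have : 53 * x * En (below A x) x ≤ 53 * x * (K * x) :=
      mul_le_mul_of_nonneg_left hxE (by positivity)
    linarith
  have hL : ∀ θ, ∃ l : ℝ, 0 ≤ l ∧ Tendsto (u θ) (U : Filter ℕ) (𝓝 l) := by
    intro θ
    have h1 : ∀ᶠ x : ℕ in (U : Filter ℕ), u θ x ∈ Set.Icc (0 : ℝ) (53 * K) := by
      filter_upwards [hsum1 {θ}] with x hx
      rw [Finset.sum_singleton] at hx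
      exact ⟨by simp only [hu]; positivity, hx⟩
    obtain ⟨l, hl, hle⟩ := (isCompact_Icc (a := (0 : ℝ)) (b := 53 * K)).ultrafilter_le_nhds
      (U.map (u θ)) (by
        rw [Filter.le_principal_iff]
        exact h1)
    exact ⟨l, hl.1, hle⟩
  choose L hL0 hLt using hL
  have hLs : ∀ Θ : Finset Fr, ∑ θ ∈ Θ, L θ ≤ 53 * K := by
    intro Θ
    exact le_of_tendsto (tendsto_finsetSum Θ fun θ _ => hLt θ) (hsum1 Θ)
  have hsummable : Summable L := summable_of_sum_le hL0 hLs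
  -- constants
  have hK2 : 0 < √(2 * K) := Real.sqrt_pos.2 (by positivity)
  set D : ℝ := δ ^ 2 / √(2 * K) with hD
  have hD0 : 0 < D := by positivity
  set η : ℝ := (D / 4) ^ 4 / (16 * (53 * K)) with hη
  have hη0 : 0 < η := by positivity
  obtain ⟨O, hO⟩ := summable_iff_vanishing_norm.1 hsummable η hη0
  obtain ⟨R, hR⟩ := exists_nat_ge (8 * #O * √(53 * K) / D + 1)
  have hR0 : 0 < R := by
    have h1 : (0 : ℝ) ≤ 8 * #O * √(53 * K) / D := by positivity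
    have : (0 : ℝ) < R := by linarith
    exact_mod_cast this
  have hRO : 8 * #O * √(53 * K) ≤ D * R := by
    have h1 : 8 * #O * √(53 * K) / D ≤ R := by linarith
    rw [div_le_iff₀ hD0] at h1
    linarith
  obtain ⟨N, hN⟩ : ∃ N, N = R ^ 4 := ⟨_, rfl⟩
  let ψ : Fin N → Fr := fun i => (Set.Infinite.natEmbedding Ψ hΨ i : Fr)
  have hψ : ∀ i, ψ i ∈ Ψ := fun i => (Set.Infinite.natEmbedding Ψ hΨ i).2
  have hψi : Function.Injective ψ := by
    intro i k hik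
    exact Fin.ext ((Set.Infinite.natEmbedding Ψ hΨ).injective (Subtype.ext hik))
  set ε : ℝ := (D / 4) ^ 2 / K with hε
  have hε0 : 0 < ε := by positivity
  have hε1 : 0 < min 1 (ε / 2) := lt_min one_pos (by positivity)
  choose Θ c hΘ using fun i k => hap (ψ i) (hψ i) (ψ k) (hψ k) (min 1 (ε / 2)) hε1
  have hc : ∀ i k, ∑ θ ∈ Θ i k, ‖c i k θ‖ ^ 2 ≤ 4 := by
    intro i k
    refine coef_le (fun n => ?_) (min_le_left _ _) (hΘ i k)
    rw [norm_mul, RCLike.norm_conj]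
    exact mul_le_one₀ (hb _ (hψ i) n) (norm_nonneg _) (hb _ (hψ k) n)
  -- eventual facts
  have ht2 : Tendsto (fun x : ℕ => 2 * x) atTop atTop :=
    tendsto_atTop_mono (fun x => show x ≤ 2 * x by omega) tendsto_id
  have E1 : ∀ᶠ x : ℕ in (U : Filter ℕ), ∀ i k, ∑ n ∈ range (2 * x),
      ‖(starRingEnd ℂ) (h (ψ i) n) * h (ψ k) n - tp (Θ i k) (c i k) n‖ ^ 2 ≤ ε * x := by
    rw [eventually_all]
    intro i
    rw [eventually_all]
    intro k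
    filter_upwards [hUt (ht2.eventually (hΘ i k))] with x hx
    refine hx.trans ?_
    push_cast
    have hx0 : (0 : ℝ) ≤ x := Nat.cast_nonneg _
    have : min 1 (ε / 2) * (2 * (x : ℝ)) ≤ ε / 2 * (2 * x) :=
      mul_le_mul_of_nonneg_right (min_le_right _ _) (by positivity)
    linarith
  have E2 : ∀ᶠ x : ℕ in (U : Filter ℕ), ∀ θ ∈ O, ∀ i,
      ∑ k, ‖hat (below A x) (θ + (ψ i - ψ k))‖ ^ 4 ≤ 53 * x * En (below A x) x := by
    rw [Finset.eventually_all]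
    intro θ _
    rw [eventually_all]
    intro i
    filter_upwards [hUt (sum_hat_le (Finset.univ.image fun k => θ + (ψ i - ψ k)))] with x hx
    have h1 := hx (below A x) (below_subset_range A x)
    rw [Finset.sum_image] at h1
    · exact h1
    · intro k _ k' _ hkk
      have h2 : ψ k = ψ k' := by
        have h3 := add_left_cancel hkk
        exact sub_right_injective h3
      exact hψi h2
  have E3 : ∀ᶠ x : ℕ in (U : Filter ℕ), ∀ i k,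
      ∑ θ ∈ Θ i k, ‖hat (below A x) (θ + (ψ i - ψ k))‖ ^ 4 ≤ 53 * x * En (below A x) x := by
    rw [eventually_all]
    intro i
    rw [eventually_all]
    intro k
    filter_upwards [hUt (sum_hat_le ((Θ i k).image fun θ => θ + (ψ i - ψ k)))] with x hx
    have h1 := hx (below A x) (below_subset_range A x)
    rw [Finset.sum_image (fun _ _ _ _ hkk => add_right_cancel hkk)] at h1
    exact h1
  have E4 : ∀ᶠ x : ℕ in (U : Filter ℕ), ∀ i k,
      ∑ θ ∈ Θ i k with θ ∉ O, ‖hat (below A x) θ‖ ^ 4 ≤ η * x ^ 2 := by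
    rw [eventually_all]
    intro i
    rw [eventually_all]
    intro k
    have h1 : ∑ θ ∈ Θ i k with θ ∉ O, L θ < η := by
      have h2 := hO ((Θ i k).filter (· ∉ O)) (by
        rw [Finset.disjoint_left]
        intro θ hθ hθO
        exact (mem_filter.1 hθ).2 hθO)
      exact (le_abs_self _).trans_lt h2
    have h3 : Tendsto (fun x => ∑ θ ∈ Θ i k with θ ∉ O, u θ x) (U : Filter ℕ)
        (𝓝 (∑ θ ∈ Θ i k with θ ∉ O, L θ)) := tendsto_finsetSum _ fun θ _ => hLt θ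
    filter_upwards [h3.eventually (gt_mem_nhds h1), hUt (eventually_gt_atTop 0)] with x hx hx0
    have hx0' : (0 : ℝ) < x := by exact_mod_cast hx0
    simp only [hu] at hx
    rw [← Finset.sum_div, div_lt_iff₀ (by positivity)] at hx
    exact hx.le
  have E5 : ∀ᶠ x : ℕ in (U : Filter ℕ), ∀ i, δ * x ≤ ‖∑ p ∈ below A x ×ˢ below A x,
      v x p.1 p.2 * (ch p.1 (ψ i) * (starRingEnd ℂ) (h (ψ i) (p.1 + p.2)))‖ := by
    rw [eventually_all]
    intro i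
    exact hUF (hcor (ψ i) (hψ i))
  have E6 : ∀ᶠ x : ℕ in (U : Filter ℕ), En (below A x) x ≤ K * x := hUF hE
  have E7 : ∀ᶠ x : ℕ in (U : Filter ℕ), 0 < x := hUt (eventually_gt_atTop 0)
  obtain ⟨x, h1, h2, h3, h4, h5, hxE, hx0⟩ :=
    (E1.and (E2.and (E3.and (E4.and (E5.and (E6.and E7)))))).exists
  have hx0' : (0 : ℝ) < x := by exact_mod_cast hx0
  obtain ⟨ω, hω, hG⟩ := kernel_lower (below A x) ψ (fun i => h (ψ i)) (v x) (hv x)
  refine key (below A x) hx0 (below_subset_range A x) hK hD0 hxE hR0 hN ψ (fun i => h (ψ i)) ω hω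
    ?_ Θ c O hc h1 ?_ h2 h3 h4 ?_ hRO
  · set G : ℝ := ∑ p ∈ below A x ×ˢ below A x,
        ‖∑ i, ω i * (ch p.1 (ψ i) * (starRingEnd ℂ) (h (ψ i) (p.1 + p.2)))‖ ^ 2 with hGdef
    have hG0 : 0 ≤ G := Finset.sum_nonneg fun _ _ => sq_nonneg _
    have h6 : δ * x * N ≤ ∑ i, ‖∑ p ∈ below A x ×ˢ below A x,
        v x p.1 p.2 * (ch p.1 (ψ i) * (starRingEnd ℂ) (h (ψ i) (p.1 + p.2)))‖ := by
      have h7 := Finset.sum_le_sum (s := (Finset.univ : Finset (Fin N))) fun i _ => h5 i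
      rw [Finset.sum_const, Finset.card_univ, Fintype.card_fin, nsmul_eq_mul] at h7
      linarith
    have h8 : (δ * x * N) ^ 2 ≤ √(2 * K) * x * G :=
      (pow_le_pow_left₀ (by positivity) h6 2).trans (hG.trans
        (mul_le_mul_of_nonneg_right (card_sq_le' _ (below_subset_range A x) hK hxE) hG0))
    have h9 : √(2 * K) * x * (D * x * N ^ 2) = (δ * x * N) ^ 2 := by
      rw [hD]
      field_simp
    rw [← h9] at h8
    exact le_of_mul_le_mul_left h8 (by positivity)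
  · rw [hε, mul_div_cancel₀ _ hK.ne']
  · rw [hη, mul_div_cancel₀ _ (by positivity)]

end Pool.Agent.Helper57.PC
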