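import Pool.Agent.Helper38.RC.LS2

/-! Characters of the integers, trigonometric polynomials, the fourth power large sieve for a fixed
finite set of frequencies. -/

namespace Pool.Agent.Helper57.PC

open Finset Filter Topology
open Pool.Agent.Helper25.RC (repF)

/-- the circle of frequencies -/
abbrev Fr := AddCircle (1 : ℝ)

/-- characters -/
noncomputable def ch (n : ℕ) (θ : Fr) : ℂ := ((n • θ).toCircle : ℂ)

lemma ch_add (n : ℕ) (θ θ' : Fr) : ch n (θ + θ') = ch n θ * ch n θ' := by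
  unfold ch
  rw [smul_add, AddCircle.toCircle_add, Circle.coe_mul]

lemma ch_nat_add (m n : ℕ) (θ : Fr) : ch (m + n) θ = ch m θ * ch n θ := by
  unfold ch
  rw [add_smul, AddCircle.toCircle_add, Circle.coe_mul]

lemma norm_ch (n : ℕ) (θ : Fr) : ‖ch n θ‖ = 1 := Circle.norm_coe _

lemma ch_neg (n : ℕ) (θ : Fr) : ch n (-θ) = (starRingEnd ℂ) (ch n θ) := by
  unfold ch
  rw [smul_neg, AddCircle.toCircle_neg, Circle.coe_inv_eq_conj]

lemma ch_zero (n : ℕ) : ch n 0 = 1 := by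
  unfold ch
  simp

lemma ch_conj_mul (n : ℕ) (θ : Fr) : (starRingEnd ℂ) (ch n θ) * ch n θ = 1 := by
  rw [← ch_neg, ← ch_add, neg_add_cancel, ch_zero]

lemma ch_sub (n : ℕ) (θ θ' : Fr) : ch n (θ - θ') = ch n θ * (starRingEnd ℂ) (ch n θ') := by
  rw [sub_eq_add_neg, ch_add, ch_neg]

lemma ch_pow (n : ℕ) (θ : Fr) : ch n θ = ch 1 θ ^ n := by
  induction n with
  | zero => unfold ch; simp
  | succ n ih => rw [ch_nat_add, ih, pow_succ]

lemma ch_coe (n : ℕ) (t : ℝ) :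
    ch n (t : Fr) = Complex.exp (2 * Real.pi * Complex.I * n * t) := by
  have h := fourier_coe_apply (T := (1 : ℝ)) (n := (n : ℤ)) (x := t)
  rw [fourier_apply] at h
  unfold ch
  rw [← natCast_zsmul, h]
  simp

lemma ch_one_ne {θ : Fr} (h : θ ≠ 0) : ch 1 θ ≠ 1 := by
  intro h1
  apply h
  unfold ch at h1
  rw [one_smul] at h1
  have h2 : θ.toCircle = (0 : Fr).toCircle := by
    apply Circle.ext
    rw [h1, AddCircle.toCircle_zero, Circle.coe_one]
  exact AddCircle.injective_toCircle one_ne_zero h2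

/-- bounded sums of a nontrivial character -/
lemma sum_ch_le {θ : Fr} (h : θ ≠ 0) (x : ℕ) :
    ‖∑ n ∈ range x, ch n θ‖ ≤ 2 / ‖ch 1 θ - 1‖ := by
  have h1 : ch 1 θ - 1 ≠ 0 := sub_ne_zero.2 (ch_one_ne h)
  have e : ∑ n ∈ range x, ch n θ = (ch 1 θ ^ x - 1) / (ch 1 θ - 1) := by
    rw [← geom_sum_eq (ch_one_ne h)]
    exact Finset.sum_congr rfl fun n _ => ch_pow n θ
  rw [e, norm_div]
  have h2 : ‖ch 1 θ ^ x - 1‖ ≤ 2 := by
    refine (norm_sub_le _ _).trans ?_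
    rw [norm_pow, norm_ch, one_pow, norm_one]
    norm_num
  gcongr

/-- means of characters -/
lemma tendsto_mean_ch (θ : Fr) :
    Tendsto (fun x : ℕ => (∑ n ∈ range x, ch n θ) / x) atTop (𝓝 (if θ = 0 then 1 else 0)) := by
  split_ifs with h
  · subst h
    refine Tendsto.congr' ?_ tendsto_const_nhds
    filter_upwards [eventually_gt_atTop 0] with x hx
    have hx' : (x : ℂ) ≠ 0 := by exact_mod_cast hx.ne'
    simp [ch_zero, hx']
  · rw [tendsto_zero_iff_norm_tendsto_zero]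
    have h1 : Tendsto (fun x : ℕ => (2 / ‖ch 1 θ - 1‖) / (x : ℝ)) atTop (𝓝 0) :=
      tendsto_const_nhds.div_atTop tendsto_natCast_atTop_atTop
    refine squeeze_zero (fun x => norm_nonneg _) (fun x => ?_) h1
    rw [norm_div, Complex.norm_natCast]
    exact div_le_div_of_nonneg_right (sum_ch_le h x) (Nat.cast_nonneg _)

/-- trigonometric polynomials -/
noncomputable def tp (Θ : Finset Fr) (c : Fr → ℂ) (n : ℕ) : ℂ := ∑ θ ∈ Θ, c θ * ch n θ

/-- means of squares of trigonometric polynomials -/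
lemma tendsto_mean_sq (Θ : Finset Fr) (c : Fr → ℂ) :
    Tendsto (fun x : ℕ => (∑ n ∈ range x, ‖tp Θ c n‖ ^ 2) / x) atTop
      (𝓝 (∑ θ ∈ Θ, ‖c θ‖ ^ 2)) := by
  have e1 : ∀ x : ℕ, (((∑ n ∈ range x, ‖tp Θ c n‖ ^ 2) / x : ℝ) : ℂ) =
      ∑ θ ∈ Θ, ∑ θ' ∈ Θ, (c θ * (starRingEnd ℂ) (c θ')) *
        ((∑ n ∈ range x, ch n (θ - θ')) / x) := by
    intro x
    push_cast
    have e2 : ∀ n ∈ range x, ((‖tp Θ c n‖ : ℂ)) ^ 2 =
        ∑ θ ∈ Θ, ∑ θ' ∈ Θ, (c θ * (starRingEnd ℂ) (c θ')) * ch n (θ - θ') := by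
      intro n _
      rw [← Complex.mul_conj']
      unfold tp
      rw [map_sum, Finset.sum_mul_sum]
      refine Finset.sum_congr rfl fun θ _ => Finset.sum_congr rfl fun θ' _ => ?_
      rw [ch_sub, map_mul]
      ring
    rw [Finset.sum_congr rfl e2, Finset.sum_comm, Finset.sum_div]
    refine Finset.sum_congr rfl fun θ _ => ?_
    rw [Finset.sum_comm, Finset.sum_div]
    refine Finset.sum_congr rfl fun θ' _ => ?_
    rw [← Finset.mul_sum, mul_div_assoc]
  have h1 : Tendsto (fun x : ℕ => (((∑ n ∈ range x, ‖tp Θ c n‖ ^ 2) / x : ℝ) : ℂ)) atTop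
      (𝓝 (∑ θ ∈ Θ, ∑ θ' ∈ Θ, (c θ * (starRingEnd ℂ) (c θ')) *
        (if θ - θ' = 0 then 1 else 0))) := by
    simp_rw [e1]
    refine tendsto_finsetSum _ fun θ _ => tendsto_finsetSum _ fun θ' _ => ?_
    exact (tendsto_mean_ch (θ - θ')).const_mul _
  have e3 : ∑ θ ∈ Θ, ∑ θ' ∈ Θ, (c θ * (starRingEnd ℂ) (c θ')) *
        (if θ - θ' = 0 then (1 : ℂ) else 0) = ((∑ θ ∈ Θ, ‖c θ‖ ^ 2 : ℝ) : ℂ) := by
    push_cast
    refine Finset.sum_congr rfl fun θ hθ => ?_
    rw [Finset.sum_eq_single θ]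
    · rw [sub_self, if_pos rfl, mul_one, Complex.mul_conj']
    · intro θ' _ hne
      rw [if_neg (sub_ne_zero.2 (Ne.symm hne)), mul_zero]
    · intro h
      exact absurd hθ h
  rw [e3] at h1
  have h2 := (Complex.continuous_re.tendsto _).comp h1
  simpa only [Function.comp_def, Complex.ofReal_re] using h2

/-- exponential sums -/
noncomputable def hat (S : Finset ℕ) (θ : Fr) : ℂ := ∑ a ∈ S, ch a θ

lemma hat_coe (S : Finset ℕ) (t : ℝ) :
    hat S (t : Fr) = Pool.Agent.Helper38.RC.expSum S t := by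
  unfold hat Pool.Agent.Helper38.RC.expSum
  refine Finset.sum_congr rfl fun a _ => ?_
  rw [ch_coe]
  congr 1
  push_cast
  ring

/-- the energy -/
noncomputable def En (S : Finset ℕ) (x : ℕ) : ℝ := ∑ n ∈ range (2 * x), ((repF S n : ℕ) : ℝ) ^ 2

/-- representative in `[0, 1)` -/
noncomputable def lift (θ : Fr) : ℝ := (AddCircle.equivIco (1 : ℝ) 0 θ : ℝ)

lemma coe_lift (θ : Fr) : ((lift θ : ℝ) : Fr) = θ := AddCircle.coe_equivIco (p := (1 : ℝ))

lemma lift_inj {θ θ' : Fr} (h : lift θ = lift θ') : θ = θ' := by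
  rw [← coe_lift θ, h, coe_lift]

lemma lift_mem (θ : Fr) : 0 ≤ lift θ ∧ lift θ ≤ 1 := by
  have h := (AddCircle.equivIco (1 : ℝ) 0 θ).2
  refine ⟨h.1, ?_⟩
  exact h.2.le.trans (le_of_eq (zero_add 1))

/-- large sieve for one frequency -/
lemma hat_le (S : Finset ℕ) {x : ℕ} (hx : 0 < x) (hS : S ⊆ range x) (θ : Fr) :
    ‖hat S θ‖ ^ 4 ≤ 53 * x * En S x := by
  have h := Pool.Agent.Helper38.RC.energy_large_sieve S hx hS {lift θ}
    (fun t ht => by rw [Finset.mem_singleton.1 ht]; exact lift_mem θ)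
    (fun s hs t ht hne => absurd ((Finset.mem_singleton.1 hs).trans
      (Finset.mem_singleton.1 ht).symm) hne)
  rw [Finset.sum_singleton, ← hat_coe, coe_lift] at h
  exact h

/-- large sieve for a fixed finite set of frequencies -/
lemma sum_hat_le (Θ : Finset Fr) : ∀ᶠ x : ℕ in atTop, ∀ S ⊆ range x,
    ∑ θ ∈ Θ, ‖hat S θ‖ ^ 4 ≤ 53 * x * En S x := by
  classical
  -- separation
  have hsep : ∃ d : ℝ, 0 < d ∧ ∀ θ ∈ Θ, ∀ θ' ∈ Θ, θ ≠ θ' → d ≤ |lift θ - lift θ'| := by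
    set P := (Θ ×ˢ Θ).filter fun p => p.1 ≠ p.2 with hP
    rcases P.eq_empty_or_nonempty with h | h
    · refine ⟨1, one_pos, fun θ h1 θ' h2 hne => ?_⟩
      have : (θ, θ') ∈ P := by
        rw [hP, Finset.mem_filter, Finset.mem_product]
        exact ⟨⟨h1, h2⟩, hne⟩
      rw [h] at this
      exact absurd this (Finset.notMem_empty _)
    · obtain ⟨p, hp, hmin⟩ := P.exists_min_image (fun p => |lift p.1 - lift p.2|) h
      refine ⟨|lift p.1 - lift p.2|, ?_, fun θ h1 θ' h2 hne => ?_⟩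
      · rw [abs_pos, sub_ne_zero]
        intro he
        exact (Finset.mem_filter.1 hp).2 (lift_inj he)
      · refine hmin (θ, θ') ?_
        rw [hP, Finset.mem_filter, Finset.mem_product]
        exact ⟨⟨h1, h2⟩, hne⟩
  obtain ⟨d, hd, hsep⟩ := hsep
  obtain ⟨x₀, hx₀⟩ := exists_nat_ge (1 / d)
  filter_upwards [eventually_ge_atTop x₀, eventually_gt_atTop 0] with x hx hx0 S hS
  have hx0' : (0 : ℝ) < x := by exact_mod_cast hx0
  have hdx : 1 / (x : ℝ) ≤ d := by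
    rw [div_le_iff₀ hx0']
    rw [div_le_iff₀ hd] at hx₀
    have : (x₀ : ℝ) ≤ x := by exact_mod_cast hx
    nlinarith
  have h := Pool.Agent.Helper38.RC.energy_large_sieve S hx0 hS (Θ.image lift)
    (fun t ht => by
      obtain ⟨θ, _, rfl⟩ := Finset.mem_image.1 ht
      exact lift_mem θ)
    (fun s hs t ht hne => by
      obtain ⟨θ, hθ, rfl⟩ := Finset.mem_image.1 hs
      obtain ⟨θ', hθ', rfl⟩ := Finset.mem_image.1 ht
      exact hdx.trans (hsep θ hθ θ' hθ' fun h => hne (by rw [h])))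
  rw [Finset.sum_image (fun _ _ _ _ h => lift_inj h)] at h
  refine le_trans (le_of_eq ?_) h
  refine Finset.sum_congr rfl fun θ _ => ?_
  rw [← hat_coe, coe_lift]

end Pool.Agent.Helper57.PC
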