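import Mathlib

/-! MP_12a1af_nt: summands whose residues can be guessed from the residues of the sum.
The finite inequality. -/

namespace Pool.Agent.Helper57.PC

open Finset

section defs

variable (A : Finset ℕ) (x : ℕ)

/-- number of pairs `(a, c)` with `a + x = c + d` -/
noncomputable def D (d : ℕ) : ℝ :=
  ∑ p ∈ A ×ˢ A, if p.1 + x = p.2 + d then 1 else 0

/-- the same modulo `l` -/
noncomputable def F (l d : ℕ) : ℝ :=
  ∑ p ∈ A ×ˢ A, if (p.1 + x) % l = (p.2 + d) % l then 1 else 0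

/-- test function -/
noncomputable def u (j l d : ℕ) : ℝ := if d % j = x % j then F A x l d else 0

/-- number of representations -/
noncomputable def R (n : ℕ) : ℝ := ∑ p ∈ A ×ˢ A, if p.1 + p.2 = n then 1 else 0

/-- number of pairs whose first residue modulo `j` is a given function of the residue of the sum
modulo `l` -/
noncomputable def G (j l : ℕ) (φ : ℕ → ℕ) : ℝ :=
  ∑ p ∈ A ×ˢ A, if p.1 % j = φ ((p.1 + p.2) % l) % j then 1 else 0

/-- square sum of the test function over one period -/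
noncomputable def L (j l : ℕ) : ℝ := ∑ c ∈ range l, u A x j l c ^ 2

end defs

variable {A : Finset ℕ} {x : ℕ}

lemma F_nonneg (l d : ℕ) : 0 ≤ F A x l d :=
  Finset.sum_nonneg fun _ _ => by split_ifs <;> norm_num

lemma u_nonneg (j l d : ℕ) : 0 ≤ u A x j l d := by
  unfold u; split_ifs
  · exact F_nonneg l d
  · exact le_rfl

lemma D_nonneg (d : ℕ) : 0 ≤ D A x d :=
  Finset.sum_nonneg fun _ _ => by split_ifs <;> norm_num

lemma F_mod (l d : ℕ) : F A x l (d % l) = F A x l d := by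
  unfold F
  refine Finset.sum_congr rfl fun p _ => ?_
  rw [Nat.add_mod_mod]

lemma u_mod {j l : ℕ} (h : j ∣ l) (d : ℕ) : u A x j l (d % l) = u A x j l d := by
  unfold u
  rw [F_mod, Nat.mod_mod_of_dvd _ h]

/-- sums against `D` -/
lemma sum_D_mul (hA : A ⊆ range x) (h : ℕ → ℝ) :
    ∑ d ∈ range (2 * x), D A x d * h d = ∑ p ∈ A ×ˢ A, h (p.1 + x - p.2) := by
  unfold D
  simp_rw [Finset.sum_mul]
  rw [Finset.sum_comm]
  refine Finset.sum_congr rfl fun p hp => ?_
  obtain ⟨h1, h2⟩ := Finset.mem_product.1 hp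
  have h1' := Finset.mem_range.1 (hA h1)
  have h2' := Finset.mem_range.1 (hA h2)
  rw [Finset.sum_eq_single (p.1 + x - p.2)]
  · rw [if_pos (by omega), one_mul]
  · intro d _ hd
    rw [if_neg (by omega), zero_mul]
  · intro hd
    exact absurd (Finset.mem_range.2 (by omega)) hd

/-- the energy through differences and through sums -/
lemma sum_D_sq (hA : A ⊆ range x) :
    ∑ d ∈ range (2 * x), D A x d ^ 2 = ∑ n ∈ range (2 * x), R A n ^ 2 := by
  simp_rw [sq]
  rw [sum_D_mul hA]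
  have e1 : ∀ p ∈ A ×ˢ A, D A x (p.1 + x - p.2) =
      ∑ q ∈ A ×ˢ A, if q.1 + p.2 = p.1 + q.2 then (1 : ℝ) else 0 := by
    intro p hp
    obtain ⟨h1, h2⟩ := Finset.mem_product.1 hp
    have h1' := Finset.mem_range.1 (hA h1)
    have h2' := Finset.mem_range.1 (hA h2)
    unfold D
    refine Finset.sum_congr rfl fun q _ => ?_
    refine if_congr ?_ rfl rfl
    omega
  rw [Finset.sum_congr rfl e1]
  have e2 : ∀ n, R A n * R A n = ∑ p ∈ A ×ˢ A, ∑ q ∈ A ×ˢ A,
      (if p.1 + p.2 = n then (1 : ℝ) else 0) * (if q.1 + q.2 = n then 1 else 0) := by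
    intro n
    unfold R
    rw [Finset.sum_mul_sum]
  simp_rw [e2]
  have e3 : ∀ p ∈ A ×ˢ A, ∑ n ∈ range (2 * x), ∑ q ∈ A ×ˢ A,
      (if p.1 + p.2 = n then (1 : ℝ) else 0) * (if q.1 + q.2 = n then 1 else 0) =
      ∑ q ∈ A ×ˢ A, if q.1 + q.2 = p.1 + p.2 then (1 : ℝ) else 0 := by
    intro p hp
    obtain ⟨h1, h2⟩ := Finset.mem_product.1 hp
    have h1' := Finset.mem_range.1 (hA h1)
    have h2' := Finset.mem_range.1 (hA h2)
    rw [Finset.sum_comm]
    refine Finset.sum_congr rfl fun q _ => ?_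
    rw [Finset.sum_eq_single (p.1 + p.2)]
    · rw [if_pos rfl, one_mul]
    · intro n _ hn
      rw [if_neg (Ne.symm hn), zero_mul]
    · intro hn
      exact absurd (Finset.mem_range.2 (by omega)) hn
  conv_rhs => rw [Finset.sum_comm]
  rw [Finset.sum_congr rfl e3]
  -- both sides count quadruples
  simp_rw [Finset.sum_product]
  refine Finset.sum_congr rfl fun a _ => ?_
  have e4 : ∀ c ∈ A, ∑ q ∈ A, ∑ b ∈ A, (if q + c = a + b then (1 : ℝ) else 0) =
      ∑ b ∈ A, ∑ q ∈ A, (if q + c = a + b then (1 : ℝ) else 0) := fun c _ => Finset.sum_comm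
  rw [Finset.sum_congr rfl e4, Finset.sum_comm]
  refine Finset.sum_congr rfl fun b _ => ?_
  rw [Finset.sum_comm]

/-- the class sums of `D` -/
lemma sum_D_class (hA : A ⊆ range x) {l : ℕ} (c : ℕ) (hc : c < l) :
    ∑ d ∈ range (2 * x), D A x d * (if d % l = c then 1 else 0) = F A x l c := by
  rw [sum_D_mul hA]
  unfold F
  refine Finset.sum_congr rfl fun p hp => ?_
  obtain ⟨h1, h2⟩ := Finset.mem_product.1 hp
  have h1' := Finset.mem_range.1 (hA h1)
  have h2' := Finset.mem_range.1 (hA h2)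
  refine if_congr ?_ rfl rfl
  have e : p.1 + x = p.2 + (p.1 + x - p.2) := by omega
  constructor
  · intro h
    rw [e, ← h, Nat.add_mod_mod]
  · intro h
    rw [e] at h
    have h3 : p.1 + x - p.2 ≡ c [MOD l] := Nat.ModEq.add_left_cancel' p.2 h
    rw [← Nat.mod_eq_of_lt hc]
    exact h3

/-- `sum D u` is the square sum of `u` over one period -/
lemma sum_D_u (hA : A ⊆ range x) {j l : ℕ} (h : j ∣ l) (hl : 0 < l) :
    ∑ d ∈ range (2 * x), D A x d * u A x j l d = ∑ c ∈ range l, u A x j l c ^ 2 := by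
  have e : ∀ d, D A x d * u A x j l d =
      ∑ c ∈ range l, D A x d * (if d % l = c then 1 else 0) * u A x j l c := by
    intro d
    rw [Finset.sum_eq_single (d % l)]
    · rw [if_pos rfl, mul_one, u_mod h]
    · intro c _ hc
      rw [if_neg (Ne.symm hc), mul_zero, zero_mul]
    · intro hd
      exact absurd (Finset.mem_range.2 (Nat.mod_lt _ hl)) hd
  simp_rw [e]
  rw [Finset.sum_comm]
  refine Finset.sum_congr rfl fun c hc => ?_
  rw [← Finset.sum_mul, sum_D_class hA c (Finset.mem_range.1 hc), sq]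
  unfold u
  split_ifs
  · rfl
  · simp

/-- `sum D u` counts quadruples -/
lemma sum_D_u_eq_Q (hA : A ⊆ range x) (j l : ℕ) :
    ∑ d ∈ range (2 * x), D A x d * u A x j l d =
      ∑ p ∈ A ×ˢ A, ∑ q ∈ A ×ˢ A,
        if (p.1 + p.2) % l = (q.1 + q.2) % l ∧ p.1 % j = q.1 % j then 1 else 0 := by
  rw [sum_D_mul hA]
  have e1 : ∀ p ∈ A ×ˢ A, u A x j l (p.1 + x - p.2) = ∑ q ∈ A ×ˢ A,
      if (q.1 + p.2) % l = (p.1 + q.2) % l ∧ p.1 % j = p.2 % j then (1 : ℝ) else 0 := by
    intro p hp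
    obtain ⟨h1, h2⟩ := Finset.mem_product.1 hp
    have h1' := Finset.mem_range.1 (hA h1)
    have h2' := Finset.mem_range.1 (hA h2)
    have e : p.1 + x = p.2 + (p.1 + x - p.2) := by omega
    have hj : (p.1 + x - p.2) % j = x % j ↔ p.1 % j = p.2 % j := by
      constructor
      · intro h
        have h3 : p.2 + (p.1 + x - p.2) ≡ p.2 + x [MOD j] := Nat.ModEq.add_left _ h
        rw [← e] at h3
        exact Nat.ModEq.add_right_cancel' x h3
      · intro h
        have h3 : p.1 + x ≡ p.2 + x [MOD j] := Nat.ModEq.add_right _ h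
        rw [e] at h3
        exact Nat.ModEq.add_left_cancel' p.2 h3
    unfold u
    by_cases h : p.1 % j = p.2 % j
    · rw [if_pos (hj.2 h)]
      unfold F
      refine Finset.sum_congr rfl fun q _ => ?_
      refine if_congr ?_ rfl rfl
      rw [and_iff_left h]
      constructor
      · intro h3
        have h4 : (q.1 + x) + p.2 ≡ (q.2 + (p.1 + x - p.2)) + p.2 [MOD l] :=
          Nat.ModEq.add_right _ h3
        have e5 : (q.2 + (p.1 + x - p.2)) + p.2 = (p.1 + q.2) + x := by omega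
        have e6 : (q.1 + x) + p.2 = (q.1 + p.2) + x := by omega
        rw [e5, e6] at h4
        exact Nat.ModEq.add_right_cancel' x h4
      · intro h3
        have h4 : (q.1 + p.2) + x ≡ (p.1 + q.2) + x [MOD l] := Nat.ModEq.add_right _ h3
        have e5 : (q.2 + (p.1 + x - p.2)) + p.2 = (p.1 + q.2) + x := by omega
        have e6 : (q.1 + x) + p.2 = (q.1 + p.2) + x := by omega
        rw [← e5, ← e6] at h4
        exact Nat.ModEq.add_right_cancel' p.2 h4
    · rw [if_neg (fun h' => h (hj.1 h'))]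
      symm
      refine Finset.sum_eq_zero fun q _ => ?_
      rw [if_neg (fun h' => h h'.2)]
  rw [Finset.sum_congr rfl e1]
  simp_rw [Finset.sum_product]
  -- left: a, c, q, b with q + c = a + b, a = c (j)
  refine Finset.sum_congr rfl fun a _ => ?_
  have e2 : ∀ c ∈ A, ∑ q ∈ A, ∑ b ∈ A,
      (if (q + c) % l = (a + b) % l ∧ a % j = c % j then (1 : ℝ) else 0) =
      ∑ b ∈ A, ∑ q ∈ A, (if (a + b) % l = (c + q) % l ∧ a % j = c % j then (1 : ℝ) else 0) := by
    intro c _
    rw [Finset.sum_comm]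
    refine Finset.sum_congr rfl fun b _ => Finset.sum_congr rfl fun q _ => ?_
    refine if_congr ?_ rfl rfl
    rw [Nat.add_comm q c, eq_comm]
  rw [Finset.sum_congr rfl e2, Finset.sum_comm]

lemma L_nonneg (j l : ℕ) : 0 ≤ L A x j l := Finset.sum_nonneg fun _ _ => sq_nonneg _

/-- Cauchy over the residues of the sum -/
lemma G_sq_le (hA : A ⊆ range x) {j l : ℕ} (h : j ∣ l) (hl : 0 < l) (φ : ℕ → ℕ) :
    G A j l φ ^ 2 ≤ l * L A x j l := by
  set g : ℕ → ℝ := fun s => ∑ p ∈ A ×ˢ A,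
    if (p.1 + p.2) % l = s ∧ p.1 % j = φ s % j then 1 else 0 with hg
  have e1 : G A j l φ = ∑ s ∈ range l, g s := by
    simp only [hg]
    rw [Finset.sum_comm]
    unfold G
    refine Finset.sum_congr rfl fun p _ => ?_
    rw [Finset.sum_eq_single ((p.1 + p.2) % l)]
    · refine if_congr ?_ rfl rfl
      simp
    · intro s _ hs
      rw [if_neg (fun h' => hs h'.1.symm)]
    · intro hd
      exact absurd (Finset.mem_range.2 (Nat.mod_lt _ hl)) hd
  have e2 : (∑ s ∈ range l, g s) ^ 2 ≤ l * ∑ s ∈ range l, g s ^ 2 := by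
    have := sq_sum_le_card_mul_sum_sq (s := range l) (f := g)
    simpa using this
  have e3 : ∑ s ∈ range l, g s ^ 2 ≤ L A x j l := by
    unfold L
    rw [← sum_D_u hA h hl, sum_D_u_eq_Q hA]
    simp only [hg, sq]
    simp_rw [Finset.sum_mul_sum]
    rw [Finset.sum_comm]
    refine Finset.sum_le_sum fun p _ => ?_
    rw [Finset.sum_comm]
    refine Finset.sum_le_sum fun q _ => ?_
    rw [Finset.sum_eq_single ((p.1 + p.2) % l)]
    · by_cases h1 : p.1 % j = φ ((p.1 + p.2) % l) % j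
      · by_cases h2 : (q.1 + q.2) % l = (p.1 + p.2) % l ∧ q.1 % j = φ ((p.1 + p.2) % l) % j
        · rw [if_pos ⟨rfl, h1⟩, if_pos h2, if_pos ⟨h2.1.symm, h1.trans h2.2.symm⟩, one_mul]
        · rw [if_neg h2, mul_zero]
          split_ifs <;> norm_num
      · rw [if_neg (fun h' => h1 h'.2), zero_mul]
        split_ifs <;> norm_num
    · intro s _ hs
      rw [if_neg (fun h' => hs h'.1.symm), zero_mul]
    · intro hd
      exact absurd (Finset.mem_range.2 (Nat.mod_lt _ hl)) hd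
  rw [e1]
  exact e2.trans (mul_le_mul_of_nonneg_left e3 (Nat.cast_nonneg _))

/-- values of the test function -/
lemma u_sq_le {j l : ℕ} (h : j ∣ l) (hl : 0 < l) (d : ℕ) : u A x j l d ^ 2 ≤ L A x j l := by
  rw [← u_mod h]
  exact Finset.single_le_sum (f := fun c => u A x j l c ^ 2) (fun _ _ => sq_nonneg _)
    (Finset.mem_range.2 (Nat.mod_lt _ hl))

/-- sums of a periodic function over several periods -/
lemma sum_periodic_eq {l : ℕ} {h : ℕ → ℝ} (hp : ∀ d, h (d % l) = h d) (q : ℕ) :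
    ∑ d ∈ range (q * l), h d = q * ∑ c ∈ range l, h c := by
  induction q with
  | zero => simp
  | succ q ih =>
    rw [Nat.succ_mul, Finset.sum_range_add, ih]
    have e : ∀ c ∈ range l, h (q * l + c) = h c := by
      intro c hc
      rw [← hp (q * l + c), Nat.mul_add_mod', hp]
    rw [Finset.sum_congr rfl e]
    push_cast
    ring

/-- sums of a periodic nonnegative function over a long interval -/
lemma sum_periodic_le {l : ℕ} (hl : 0 < l) (hlx : l ≤ x) {h : ℕ → ℝ} (h0 : ∀ d, 0 ≤ h d)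
    (hp : ∀ d, h (d % l) = h d) :
    (l : ℝ) * ∑ d ∈ range (2 * x), h d ≤ 3 * x * ∑ c ∈ range l, h c := by
  have e1 := sum_periodic_eq hp
  set q := 2 * x / l + 1 with hq
  have h1 : 2 * x ≤ q * l := by
    have := Nat.lt_div_mul_add (a := 2 * x) hl
    rw [hq]
    nlinarith
  have h2 : ∑ d ∈ range (2 * x), h d ≤ ∑ d ∈ range (q * l), h d :=
    Finset.sum_le_sum_of_subset_of_nonneg (Finset.range_mono h1) fun _ _ _ => h0 _
  rw [e1] at h2
  have h3 : l * q ≤ 3 * x := by
    have h4 : l * (2 * x / l) ≤ 2 * x := Nat.mul_div_le _ _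
    rw [hq, mul_add, mul_one]
    omega
  have h5 : (l : ℝ) * q ≤ 3 * x := by exact_mod_cast h3
  have h6 : 0 ≤ ∑ c ∈ range l, h c := Finset.sum_nonneg fun _ _ => h0 _
  calc (l : ℝ) * ∑ d ∈ range (2 * x), h d ≤ l * (q * ∑ c ∈ range l, h c) :=
        mul_le_mul_of_nonneg_left h2 (Nat.cast_nonneg _)
    _ = (l * q) * ∑ c ∈ range l, h c := by ring
    _ ≤ _ := mul_le_mul_of_nonneg_right h5 h6

/-- number of residues modulo `l` in one class modulo `j` -/
lemma count_class {j l : ℕ} (hj : 0 < j) (h : j ∣ l) (y : ℕ) :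
    (j : ℝ) * ∑ c ∈ range l, (if c % j = y % j then (1 : ℝ) else 0) = l := by
  obtain ⟨k, rfl⟩ := h
  rw [mul_comm j k, sum_periodic_eq (fun d => by rw [Nat.mod_mod])]
  have e : ∑ c ∈ range j, (if c % j = y % j then (1 : ℝ) else 0) = 1 := by
    rw [Finset.sum_eq_single (y % j)]
    · rw [if_pos (Nat.mod_mod _ _)]
    · intro c hc hcy
      rw [if_neg]
      rw [Nat.mod_eq_of_lt (Finset.mem_range.1 hc)]
      exact hcy
    · intro hd
      exact absurd (Finset.mem_range.2 (Nat.mod_lt _ hj)) hd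
  rw [e]
  push_cast
  ring

/-- the sum of the test function over one period -/
lemma sum_u_sq_le {j l : ℕ} (hj : 0 < j) (h : j ∣ l) :
    (j : ℝ) * (∑ c ∈ range l, u A x j l c) ^ 2 ≤ l * L A x j l := by
  have e : ∀ c ∈ range l, u A x j l c = (if c % j = x % j then (1 : ℝ) else 0) * u A x j l c := by
    intro c _
    unfold u
    split_ifs <;> simp
  rw [Finset.sum_congr rfl e]
  have h1 := Finset.sum_mul_sq_le_sq_mul_sq (range l)
    (fun c => if c % j = x % j then (1 : ℝ) else 0) (fun c => u A x j l c)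
  have h2 : ∑ c ∈ range l, (if c % j = x % j then (1 : ℝ) else 0) ^ 2 =
      ∑ c ∈ range l, (if c % j = x % j then (1 : ℝ) else 0) := by
    refine Finset.sum_congr rfl fun c _ => ?_
    split_ifs <;> norm_num
  rw [h2] at h1
  calc (j : ℝ) * _ ≤ j * _ := mul_le_mul_of_nonneg_left h1 (Nat.cast_nonneg _)
    _ = (j * ∑ c ∈ range l, (if c % j = x % j then (1 : ℝ) else 0)) *
        ∑ c ∈ range l, u A x j l c ^ 2 := by ring
    _ = l * L A x j l := by rw [count_class hj h]; rfl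

/-- diagonal terms -/
lemma diag {j l : ℕ} (h : j ∣ l) (hl : 0 < l) (hlx : l ≤ x) :
    ∑ d ∈ range (2 * x), (l * u A x j l d) ^ 2 ≤ 3 * x * (l * L A x j l) := by
  have h1 := sum_periodic_le (h := fun d => u A x j l d ^ 2) hl hlx (fun _ => sq_nonneg _)
    (fun d => by simp only [u_mod h])
  have e : ∑ d ∈ range (2 * x), (l * u A x j l d) ^ 2 =
      l * (l * ∑ d ∈ range (2 * x), u A x j l d ^ 2) := by
    rw [← mul_assoc, Finset.mul_sum]
    refine Finset.sum_congr rfl fun d _ => ?_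
    ring
  rw [e]
  calc (l : ℝ) * _ ≤ l * _ := mul_le_mul_of_nonneg_left h1 (Nat.cast_nonneg _)
    _ = _ := by unfold L; ring

/-- cross terms -/
lemma cross {j l j' l' : ℕ} (h : j ∣ l) (hl : 0 < l) (hj' : 0 < j') (h' : j' ∣ l') (hl' : 0 < l')
    (hlx' : l' ≤ x) {s : ℝ} (hs : 0 ≤ s) (hgap : (l : ℝ) ≤ s ^ 2 * j') :
    ∑ d ∈ range (2 * x), (l * u A x j l d) * (l' * u A x j' l' d) ≤
      3 * x * (s * (l * L A x j l + l' * L A x j' l') / 2) := by
  have hu : ∀ d, u A x j l d ≤ √(L A x j l) := fun d => Real.le_sqrt_of_sq_le (u_sq_le h hl d)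
  have h1 := sum_periodic_le (h := fun d => u A x j' l' d) hl' hlx' (fun _ => u_nonneg _ _ _)
    (fun d => u_mod h' d)
  set V := ∑ c ∈ range l', u A x j' l' c with hV
  have hV0 : 0 ≤ V := Finset.sum_nonneg fun _ _ => u_nonneg _ _ _
  have hV1 : (j' : ℝ) * V ^ 2 ≤ l' * L A x j' l' := sum_u_sq_le hj' h'
  set T := (l : ℝ) * L A x j l with hT
  set T' := (l' : ℝ) * L A x j' l' with hT'
  have hT0 : 0 ≤ T := mul_nonneg (Nat.cast_nonneg _) (L_nonneg _ _)
  have hT0' : 0 ≤ T' := mul_nonneg (Nat.cast_nonneg _) (L_nonneg _ _)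
  have hX : (l : ℝ) * √(L A x j l) * V ≤ s * (T + T') / 2 := by
    refine le_of_sq_le_sq ?_ (by positivity)
    have e : ((l : ℝ) * √(L A x j l) * V) ^ 2 = l * T * V ^ 2 := by
      rw [mul_pow, mul_pow, Real.sq_sqrt (L_nonneg _ _), hT]; ring
    rw [e]
    calc (l : ℝ) * T * V ^ 2 ≤ (s ^ 2 * j') * T * V ^ 2 := by
          have := mul_le_mul_of_nonneg_right hgap hT0
          exact mul_le_mul_of_nonneg_right this (sq_nonneg _)
      _ = s ^ 2 * T * (j' * V ^ 2) := by ring
      _ ≤ s ^ 2 * T * T' := mul_le_mul_of_nonneg_left hV1 (by positivity)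
      _ ≤ (s * (T + T') / 2) ^ 2 := by nlinarith [sq_nonneg (s * (T - T'))]
  calc ∑ d ∈ range (2 * x), (l * u A x j l d) * (l' * u A x j' l' d) ≤
        ∑ d ∈ range (2 * x), (l * √(L A x j l)) * (l' * u A x j' l' d) := by
          refine Finset.sum_le_sum fun d _ => ?_
          refine mul_le_mul_of_nonneg_right ?_
            (mul_nonneg (Nat.cast_nonneg _) (u_nonneg _ _ _))
          exact mul_le_mul_of_nonneg_left (hu d) (Nat.cast_nonneg _)
    _ = (l * √(L A x j l)) * (l' * ∑ d ∈ range (2 * x), u A x j' l' d) := by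
          rw [← Finset.mul_sum, ← Finset.mul_sum]
    _ ≤ (l * √(L A x j l)) * (3 * x * V) :=
          mul_le_mul_of_nonneg_left h1 (by positivity)
    _ = 3 * x * (l * √(L A x j l) * V) := by ring
    _ ≤ _ := mul_le_mul_of_nonneg_left hX (by positivity)

/-- gaps between stages -/
lemma gap {S : ℕ} {j l : ℕ → ℕ} (hjl : ∀ i < S, j i ∣ l i ∧ 0 < l i)
    (hg : ∀ i, i + 1 < S → 4 * l i ≤ j (i + 1)) {k i : ℕ} (hk : k < i) (hi : i < S) :
    4 ^ (i - k) * l k ≤ j i := by
  obtain ⟨r, rfl⟩ := Nat.exists_eq_add_of_lt hk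
  induction r with
  | zero =>
    have := hg k (by omega)
    simpa using this
  | succ r ih =>
    have h1 := ih (by omega) (by omega)
    have h2 := hg (k + r + 1) (by omega)
    have h3 : j (k + r + 1) ≤ l (k + r + 1) :=
      Nat.le_of_dvd (hjl _ (by omega)).2 (hjl _ (by omega)).1
    have e : k + (r + 1) + 1 - k = (k + r + 1 - k) + 1 := by omega
    rw [e, pow_succ]
    have e2 : k + (r + 1) + 1 = k + r + 1 + 1 := by omega
    rw [e2]
    nlinarith

/-- the almost orthogonality bound -/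
lemma sum_w_sq (S : ℕ) (j l : ℕ → ℕ) (hjl : ∀ i < S, 0 < j i ∧ j i ∣ l i ∧ 0 < l i ∧ l i ≤ x)
    (hg : ∀ i, i + 1 < S → 4 * l i ≤ j (i + 1)) :
    ∑ d ∈ range (2 * x), (∑ i ∈ range S, l i * u A x (j i) (l i) d) ^ 2 +
      6 * x * ∑ k ∈ range S, (1 / 2 : ℝ) ^ (S - k) * (l k * L A x (j k) (l k)) ≤
      9 * x * ∑ i ∈ range S, l i * L A x (j i) (l i) := by
  induction S with
  | zero => simp
  | succ S ih =>
    have ih' := ih (fun i hi => hjl i (by omega)) (fun i hi => hg i (by omega))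
    obtain ⟨hj, hd, hl, hlx⟩ := hjl S (by omega)
    set T : ℕ → ℝ := fun k => l k * L A x (j k) (l k) with hT
    have hT0 : ∀ k, 0 ≤ T k := fun k => mul_nonneg (Nat.cast_nonneg _) (L_nonneg _ _)
    set w : ℕ → ℝ := fun d => ∑ i ∈ range S, l i * u A x (j i) (l i) d with hw
    have e1 : ∀ d, ∑ i ∈ range (S + 1), l i * u A x (j i) (l i) d =
        w d + l S * u A x (j S) (l S) d := fun d => Finset.sum_range_succ _ _
    have e2 : ∑ k ∈ range (S + 1), (1 / 2 : ℝ) ^ (S + 1 - k) * T k =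
        (∑ k ∈ range S, (1 / 2 : ℝ) ^ (S - k) * T k) / 2 + T S / 2 := by
      rw [Finset.sum_range_succ, Finset.sum_div]
      congr 1
      · refine Finset.sum_congr rfl fun k hk => ?_
        have := Finset.mem_range.1 hk
        rw [show S + 1 - k = (S - k) + 1 by omega, pow_succ]
        ring
      · rw [show S + 1 - S = 1 by omega]
        ring
    have hcross : ∑ d ∈ range (2 * x), w d * (l S * u A x (j S) (l S) d) ≤
        3 * x * ((∑ k ∈ range S, (1 / 2 : ℝ) ^ (S - k) * T k) / 2 + T S / 2) := by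
      have e3 : ∑ d ∈ range (2 * x), w d * (l S * u A x (j S) (l S) d) =
          ∑ k ∈ range S, ∑ d ∈ range (2 * x),
            (l k * u A x (j k) (l k) d) * (l S * u A x (j S) (l S) d) := by
        simp only [hw, Finset.sum_mul]
        rw [Finset.sum_comm]
      rw [e3]
      have h4 : ∀ k ∈ range S, ∑ d ∈ range (2 * x),
            (l k * u A x (j k) (l k) d) * (l S * u A x (j S) (l S) d) ≤
          3 * x * ((1 / 2 : ℝ) ^ (S - k) * (T k + T S) / 2) := by
        intro k hk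
        have hk' := Finset.mem_range.1 hk
        obtain ⟨_, hd', hl', _⟩ := hjl k (by omega)
        refine cross hd' hl' hj hd hl hlx (by positivity) ?_
        have h5 := gap (S := S + 1) (fun i hi => ⟨(hjl i hi).2.1, (hjl i hi).2.2.1⟩) hg hk'
          (by omega)
        have h6 : (4 : ℝ) ^ (S - k) * l k ≤ j S := by exact_mod_cast h5
        have h7 : ((1 / 2 : ℝ) ^ (S - k)) ^ 2 * 4 ^ (S - k) = 1 := by
          rw [← pow_mul, mul_comm (S - k) 2, pow_mul, ← mul_pow]
          norm_num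
        calc (l k : ℝ) = ((1 / 2 : ℝ) ^ (S - k)) ^ 2 * (4 ^ (S - k) * l k) := by
              rw [← mul_assoc, h7, one_mul]
          _ ≤ _ := mul_le_mul_of_nonneg_left h6 (by positivity)
      refine (Finset.sum_le_sum h4).trans ?_
      have h8 : ∑ k ∈ range S, (1 / 2 : ℝ) ^ (S - k) ≤ 1 := by
        have h9 : ∀ n : ℕ, ∑ k ∈ range n, (1 / 2 : ℝ) ^ (n - k) = 1 - (1 / 2) ^ n := by
          intro n
          induction n with
          | zero => simp
          | succ n ihn =>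
            have e5 : ∀ k ∈ range n, (1 / 2 : ℝ) ^ (n + 1 - k) = (1 / 2) ^ (n - k) * (1 / 2) := by
              intro k hk
              have := Finset.mem_range.1 hk
              rw [show n + 1 - k = (n - k) + 1 by omega, pow_succ]
            rw [Finset.sum_range_succ, Finset.sum_congr rfl e5, ← Finset.sum_mul, ihn,
              show n + 1 - n = 1 by omega, pow_succ]
            ring
        rw [h9]
        have : (0 : ℝ) ≤ (1 / 2) ^ S := by positivity
        linarith
      have e6 : ∑ k ∈ range S, 3 * (x : ℝ) * ((1 / 2 : ℝ) ^ (S - k) * (T k + T S) / 2) =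
          3 * x * ((∑ k ∈ range S, (1 / 2 : ℝ) ^ (S - k) * T k) / 2 +
            (∑ k ∈ range S, (1 / 2 : ℝ) ^ (S - k)) * T S / 2) := by
        rw [← Finset.mul_sum]
        congr 1
        rw [Finset.sum_div, Finset.sum_mul, Finset.sum_div, ← Finset.sum_add_distrib]
        refine Finset.sum_congr rfl fun k _ => ?_
        ring
      rw [e6]
      refine mul_le_mul_of_nonneg_left ?_ (by positivity)
      have : (∑ k ∈ range S, (1 / 2 : ℝ) ^ (S - k)) * T S ≤ 1 * T S :=
        mul_le_mul_of_nonneg_right h8 (hT0 S)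
      linarith
    have hdiag : ∑ d ∈ range (2 * x), (l S * u A x (j S) (l S) d) ^ 2 ≤ 3 * x * T S :=
      diag hd hl hlx
    have e7 : ∑ d ∈ range (2 * x), (∑ i ∈ range (S + 1), l i * u A x (j i) (l i) d) ^ 2 =
        ∑ d ∈ range (2 * x), w d ^ 2 +
          2 * ∑ d ∈ range (2 * x), w d * (l S * u A x (j S) (l S) d) +
          ∑ d ∈ range (2 * x), (l S * u A x (j S) (l S) d) ^ 2 := by
      simp_rw [e1]
      rw [Finset.mul_sum, ← Finset.sum_add_distrib, ← Finset.sum_add_distrib]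
      refine Finset.sum_congr rfl fun d _ => ?_
      ring
    rw [e7]
    change _ + 6 * x * ∑ k ∈ range (S + 1), (1 / 2 : ℝ) ^ (S + 1 - k) * T k ≤
      9 * x * ∑ i ∈ range (S + 1), T i
    rw [e2, Finset.sum_range_succ T]
    have ih2 : ∑ d ∈ range (2 * x), w d ^ 2 +
      6 * x * ∑ k ∈ range S, (1 / 2 : ℝ) ^ (S - k) * T k ≤ 9 * x * ∑ i ∈ range S, T i := ih'
    nlinarith [ih2, hcross, hdiag]

/-- The finite inequality, for the number of quadruples. -/
theorem sum_T_le (hA : A ⊆ range x) (S : ℕ) (j l : ℕ → ℕ)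
    (hjl : ∀ i < S, 0 < j i ∧ j i ∣ l i ∧ 0 < l i ∧ l i ≤ x)
    (hg : ∀ i, i + 1 < S → 4 * l i ≤ j (i + 1)) :
    ∑ i ∈ range S, l i * L A x (j i) (l i) ≤ 9 * x * ∑ n ∈ range (2 * x), R A n ^ 2 := by
  set T₀ := ∑ i ∈ range S, (l i : ℝ) * L A x (j i) (l i) with hTT
  have hT₀ : 0 ≤ T₀ :=
    Finset.sum_nonneg fun i _ => mul_nonneg (Nat.cast_nonneg _) (L_nonneg _ _)
  have h1 : ∑ d ∈ range (2 * x), D A x d * (∑ i ∈ range S, l i * u A x (j i) (l i) d) = T₀ := by
    simp_rw [Finset.mul_sum]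
    rw [Finset.sum_comm, hTT]
    refine Finset.sum_congr rfl fun i hi => ?_
    obtain ⟨_, hd, hl, _⟩ := hjl i (Finset.mem_range.1 hi)
    unfold L
    rw [← sum_D_u hA hd hl, Finset.mul_sum]
    refine Finset.sum_congr rfl fun d _ => ?_
    ring
  have h2 := Finset.sum_mul_sq_le_sq_mul_sq (range (2 * x)) (fun d => D A x d)
    (fun d => ∑ i ∈ range S, l i * u A x (j i) (l i) d)
  rw [h1, sum_D_sq hA] at h2
  have h3 := sum_w_sq (A := A) S j l hjl hg
  have h4 : 0 ≤ 6 * (x : ℝ) * ∑ k ∈ range S, (1 / 2 : ℝ) ^ (S - k) * (l k * L A x (j k) (l k)) :=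
    mul_nonneg (by positivity) (Finset.sum_nonneg fun k _ =>
      mul_nonneg (by positivity) (mul_nonneg (Nat.cast_nonneg _) (L_nonneg _ _)))
  have h5 : ∑ d ∈ range (2 * x), (∑ i ∈ range S, l i * u A x (j i) (l i) d) ^ 2 ≤ 9 * x * T₀ := by
    linarith
  have h6 : 0 ≤ ∑ n ∈ range (2 * x), R A n ^ 2 := Finset.sum_nonneg fun _ _ => sq_nonneg _
  have h7 : T₀ ^ 2 ≤ (∑ n ∈ range (2 * x), R A n ^ 2) * (9 * x * T₀) :=
    h2.trans (mul_le_mul_of_nonneg_left h5 h6)
  rcases hT₀.eq_or_lt with h8 | h8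
  · rw [← h8]
    positivity
  · have h9 : T₀ * T₀ ≤ (9 * x * ∑ n ∈ range (2 * x), R A n ^ 2) * T₀ := by nlinarith
    exact le_of_mul_le_mul_right h9 h8

/-- The finite inequality, for guessed residues. -/
theorem sum_G_le (hA : A ⊆ range x) (S : ℕ) (j l : ℕ → ℕ) (φ : ℕ → ℕ → ℕ)
    (hjl : ∀ i < S, 0 < j i ∧ j i ∣ l i ∧ 0 < l i ∧ l i ≤ x)
    (hg : ∀ i, i + 1 < S → 4 * l i ≤ j (i + 1)) :
    ∑ i ∈ range S, G A (j i) (l i) (φ i) ^ 2 ≤ 9 * x * ∑ n ∈ range (2 * x), R A n ^ 2 := by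
  refine le_trans (Finset.sum_le_sum fun i hi => ?_) (sum_T_le hA S j l hjl hg)
  obtain ⟨_, hd, hl, _⟩ := hjl i (Finset.mem_range.1 hi)
  exact G_sq_le hA hd hl _

end Pool.Agent.Helper57.PC
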