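import Pool.Agent.Helper57.PC.Char

/-! The main estimate for almost periodic choices. -/

namespace Pool.Agent.Helper57.PC

open Finset Filter Topology
open Pool.Agent.Helper25.RC (repF)

/-- sums over pairs of a function of the sum -/
lemma sum_pairs (S : Finset ℕ) {x : ℕ} (hS : S ⊆ range x) (h : ℕ → ℝ) :
    ∑ p ∈ S ×ˢ S, h (p.1 + p.2) = ∑ n ∈ range (2 * x), ((repF S n : ℕ) : ℝ) * h n := by
  have hmaps : ∀ p ∈ S ×ˢ S, p.1 + p.2 ∈ range (2 * x) := by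
    intro p hp
    rw [mem_product] at hp
    have h1 := mem_range.1 (hS hp.1)
    have h2 := mem_range.1 (hS hp.2)
    rw [mem_range]
    omega
  rw [← Finset.sum_fiberwise_of_maps_to hmaps]
  refine Finset.sum_congr rfl fun n _ => ?_
  unfold repF
  rw [Finset.sum_congr rfl (g := fun _ => h n), Finset.sum_const, nsmul_eq_mul]
  intro p hp
  rw [(mem_filter.1 hp).2]

/-- the error of an approximation -/
lemma err_le (S : Finset ℕ) {x : ℕ} (hS : S ⊆ range x) (η : Fr) (g h : ℕ → ℂ) :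
    ‖∑ p ∈ S ×ˢ S, ch p.1 η * g (p.1 + p.2) - ∑ p ∈ S ×ˢ S, ch p.1 η * h (p.1 + p.2)‖ ^ 2 ≤
      En S x * ∑ n ∈ range (2 * x), ‖g n - h n‖ ^ 2 := by
  have h1 : ‖∑ p ∈ S ×ˢ S, ch p.1 η * g (p.1 + p.2) -
      ∑ p ∈ S ×ˢ S, ch p.1 η * h (p.1 + p.2)‖ ≤
      ∑ n ∈ range (2 * x), ((repF S n : ℕ) : ℝ) * ‖g n - h n‖ := by
    rw [← sum_pairs S hS (fun n => ‖g n - h n‖), ← Finset.sum_sub_distrib]
    refine (norm_sum_le _ _).trans (Finset.sum_le_sum fun p _ => ?_)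
    rw [← mul_sub, norm_mul, norm_ch, one_mul]
  refine (pow_le_pow_left₀ (norm_nonneg _) h1 2).trans ?_
  exact Finset.sum_mul_sq_le_sq_mul_sq _ _ _

/-- the main term -/
lemma main_term (S : Finset ℕ) (η : Fr) (Θ : Finset Fr) (c : Fr → ℂ) :
    ∑ p ∈ S ×ˢ S, ch p.1 η * tp Θ c (p.1 + p.2) =
      ∑ θ ∈ Θ, c θ * hat S (θ + η) * hat S θ := by
  unfold tp
  simp_rw [Finset.mul_sum]
  rw [Finset.sum_comm]
  refine Finset.sum_congr rfl fun θ _ => ?_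
  unfold hat
  rw [mul_assoc, Finset.sum_mul_sum, ← Finset.sum_product', Finset.mul_sum]
  refine Finset.sum_congr rfl fun p _ => ?_
  rw [ch_add, ch_nat_add]
  ring

/-- the kernel -/
lemma kernel_expand {N : ℕ} (ψ : Fin N → Fr) (ω : Fin N → ℂ) (g : Fin N → ℕ → ℂ) (a n : ℕ) :
    ((‖∑ i, ω i * (ch a (ψ i) * (starRingEnd ℂ) (g i n))‖ ^ 2 : ℝ) : ℂ) =
      ∑ i, ∑ k, (ω i * (starRingEnd ℂ) (ω k)) *
        (ch a (ψ i - ψ k) * ((starRingEnd ℂ) (g i n) * g k n)) := by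
  push_cast
  rw [← Complex.mul_conj', map_sum, Finset.sum_mul_sum]
  refine Finset.sum_congr rfl fun i _ => Finset.sum_congr rfl fun k _ => ?_
  rw [ch_sub, map_mul, map_mul, Complex.conj_conj]
  ring

/-- lower bound for the kernel sum -/
lemma kernel_lower (S : Finset ℕ) {N : ℕ} (ψ : Fin N → Fr) (g : Fin N → ℕ → ℂ)
    (v : ℕ → ℕ → ℂ) (hv : ∀ a b, ‖v a b‖ ≤ 1) : ∃ ω : Fin N → ℂ, (∀ i, ‖ω i‖ ≤ 1) ∧
    (∑ i, ‖∑ p ∈ S ×ˢ S, v p.1 p.2 * (ch p.1 (ψ i) * (starRingEnd ℂ) (g i (p.1 + p.2)))‖) ^ 2 ≤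
      (#S : ℝ) ^ 2 * ∑ p ∈ S ×ˢ S,
        ‖∑ i, ω i * (ch p.1 (ψ i) * (starRingEnd ℂ) (g i (p.1 + p.2)))‖ ^ 2 := by
  classical
  set C : Fin N → ℂ := fun i =>
    ∑ p ∈ S ×ˢ S, v p.1 p.2 * (ch p.1 (ψ i) * (starRingEnd ℂ) (g i (p.1 + p.2))) with hC
  have hω : ∀ i, ∃ w : ℂ, ‖w‖ ≤ 1 ∧ w * C i = (‖C i‖ : ℂ) := by
    intro i
    by_cases h0 : C i = 0
    · exact ⟨0, by simp, by simp [h0]⟩
    · refine ⟨(‖C i‖ : ℂ) / C i, ?_, div_mul_cancel₀ _ h0⟩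
      rw [norm_div, Complex.norm_real, norm_norm, div_self (norm_ne_zero_iff.2 h0)]
  choose ω hω1 hω2 using hω
  refine ⟨ω, hω1, ?_⟩
  have e : ((∑ i, ‖C i‖ : ℝ) : ℂ) = ∑ p ∈ S ×ˢ S, v p.1 p.2 *
      ∑ i, ω i * (ch p.1 (ψ i) * (starRingEnd ℂ) (g i (p.1 + p.2))) := by
    push_cast
    simp_rw [← hω2, hC, Finset.mul_sum]
    rw [Finset.sum_comm]
    refine Finset.sum_congr rfl fun p _ => Finset.sum_congr rfl fun i _ => ?_
    ring
  have h1 : ∑ i, ‖C i‖ ≤ ∑ p ∈ S ×ˢ S, 1 *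
      ‖∑ i, ω i * (ch p.1 (ψ i) * (starRingEnd ℂ) (g i (p.1 + p.2)))‖ := by
    have h2 : ∑ i, ‖C i‖ ≤ ‖((∑ i, ‖C i‖ : ℝ) : ℂ)‖ := by
      rw [Complex.norm_real]
      exact le_abs_self _
    rw [e] at h2
    refine h2.trans ((norm_sum_le _ _).trans (Finset.sum_le_sum fun p _ => ?_))
    rw [norm_mul]
    exact mul_le_mul_of_nonneg_right (hv _ _) (norm_nonneg _)
  refine (pow_le_pow_left₀ (Finset.sum_nonneg fun _ _ => norm_nonneg _) h1 2).trans ?_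
  refine (Finset.sum_mul_sq_le_sq_mul_sq _ _ _).trans (le_of_eq ?_)
  rw [Finset.sum_const, Finset.card_product, one_pow, nsmul_eq_mul, mul_one]
  push_cast
  ring

/-- new frequencies -/
lemma new_le (Θ : Finset Fr) (c : Fr → ℂ) (S : Finset ℕ) (η : Fr) {H Y : ℝ}
    (hc : ∑ θ ∈ Θ, ‖c θ‖ ^ 2 ≤ 4) (hH : ∑ θ ∈ Θ, ‖hat S (θ + η)‖ ^ 4 ≤ H)
    (hY : ∑ θ ∈ Θ, ‖hat S θ‖ ^ 4 ≤ Y) :
    (∑ θ ∈ Θ, ‖c θ‖ * ‖hat S (θ + η)‖ * ‖hat S θ‖) ^ 4 ≤ 16 * H * Y := by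
  have hH0 : 0 ≤ H := le_trans (Finset.sum_nonneg fun _ _ => by positivity) hH
  have h1 : (∑ θ ∈ Θ, ‖c θ‖ * ‖hat S (θ + η)‖ * ‖hat S θ‖) ^ 2 ≤
      4 * ∑ θ ∈ Θ, ‖hat S (θ + η)‖ ^ 2 * ‖hat S θ‖ ^ 2 := by
    have h := Finset.sum_mul_sq_le_sq_mul_sq Θ (fun θ => ‖c θ‖)
      (fun θ => ‖hat S (θ + η)‖ * ‖hat S θ‖)
    simp_rw [← mul_assoc, mul_pow] at h
    refine h.trans (mul_le_mul_of_nonneg_right hc ?_)
    exact Finset.sum_nonneg fun _ _ => by positivity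
  have h2 : (∑ θ ∈ Θ, ‖hat S (θ + η)‖ ^ 2 * ‖hat S θ‖ ^ 2) ^ 2 ≤ H * Y := by
    have h := Finset.sum_mul_sq_le_sq_mul_sq Θ (fun θ => ‖hat S (θ + η)‖ ^ 2)
      (fun θ => ‖hat S θ‖ ^ 2)
    simp_rw [← pow_mul] at h
    refine h.trans ?_
    exact mul_le_mul hH hY (Finset.sum_nonneg fun _ _ => by positivity) hH0
  have h3 := pow_le_pow_left₀ (by positivity) h1 2
  rw [← pow_mul, mul_pow] at h3
  norm_num at h3
  nlinarith

/-- The main estimate. -/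
lemma key (S : Finset ℕ) {x : ℕ} (hx : 0 < x) (hS : S ⊆ range x) {K δ η ε : ℝ} (hK0 : 0 < K)
    (hδ : 0 < δ) (hE : En S x ≤ K * x) {N R : ℕ} (hR : 0 < R)
    (hN : N = R ^ 4) (ψ : Fin N → Fr) (g : Fin N → ℕ → ℂ) (ω : Fin N → ℂ)
    (hω : ∀ i, ‖ω i‖ ≤ 1)
    (hG1 : δ * x * N ^ 2 ≤ ∑ p ∈ S ×ˢ S,
        ‖∑ i, ω i * (ch p.1 (ψ i) * (starRingEnd ℂ) (g i (p.1 + p.2)))‖ ^ 2)
    (Θ : Fin N → Fin N → Finset Fr) (c : Fin N → Fin N → Fr → ℂ) (O : Finset Fr)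
    (hc : ∀ i k, ∑ θ ∈ Θ i k, ‖c i k θ‖ ^ 2 ≤ 4)
    (herr : ∀ i k, ∑ n ∈ range (2 * x),
      ‖(starRingEnd ℂ) (g i n) * g k n - tp (Θ i k) (c i k) n‖ ^ 2 ≤ ε * x)
    (hε : K * ε ≤ (δ / 4) ^ 2)
    (hold : ∀ θ ∈ O, ∀ i, ∑ k, ‖hat S (θ + (ψ i - ψ k))‖ ^ 4 ≤ 53 * x * En S x)
    (hnew1 : ∀ i k, ∑ θ ∈ Θ i k, ‖hat S (θ + (ψ i - ψ k))‖ ^ 4 ≤ 53 * x * En S x)
    (hnew2 : ∀ i k, ∑ θ ∈ Θ i k with θ ∉ O, ‖hat S θ‖ ^ 4 ≤ η * x ^ 2)
    (hη : 16 * (53 * K) * η ≤ (δ / 4) ^ 4)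
    (hRO : 8 * #O * √(53 * K) ≤ δ * R) : False := by
  classical
  have hx0 : (0 : ℝ) < x := by exact_mod_cast hx
  have hR0 : (0 : ℝ) < R := by exact_mod_cast hR
  have hN0 : (0 : ℝ) < N := by rw [hN]; push_cast; positivity
  set H : ℝ := 53 * K * x ^ 2 with hH
  have hH0 : 0 < H := by positivity
  have hEH : 53 * x * En S x ≤ H := by
    rw [hH]
    nlinarith
  set y : ℝ := √(√H) with hy
  have hy0 : 0 ≤ y := Real.sqrt_nonneg _
  have hy2 : y ^ 2 = √(53 * K) * x := by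
    rw [hy, Real.sq_sqrt (Real.sqrt_nonneg _), hH, Real.sqrt_mul (by positivity),
      Real.sqrt_sq hx0.le]
  have hy4 : y ^ 4 = H := by
    rw [show (4 : ℕ) = 2 * 2 by norm_num, pow_mul, hy, Real.sq_sqrt (Real.sqrt_nonneg _),
      Real.sq_sqrt hH0.le]
  have hhat : ∀ θ, ‖hat S θ‖ ≤ y := by
    intro θ
    refine le_of_pow_le_pow_left₀ (by norm_num : (4 : ℕ) ≠ 0) hy0 ?_
    rw [hy4]
    exact (hat_le S hx hS θ).trans hEH
  have hc2 : ∀ i k, ∀ θ ∈ Θ i k, ‖c i k θ‖ ≤ 2 := by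
    intro i k θ hθ
    have h1 : ‖c i k θ‖ ^ 2 ≤ 2 ^ 2 :=
      ((Finset.single_le_sum (f := fun θ => ‖c i k θ‖ ^ 2) (fun _ _ => sq_nonneg _) hθ).trans
        (hc i k)).trans (by norm_num)
    exact le_of_pow_le_pow_left₀ (by norm_num : (2 : ℕ) ≠ 0) (by norm_num) h1
  -- the kernel sum
  set G : ℝ := ∑ p ∈ S ×ˢ S,
    ‖∑ i, ω i * (ch p.1 (ψ i) * (starRingEnd ℂ) (g i (p.1 + p.2)))‖ ^ 2 with hG
  -- the terms
  set A : Fin N → Fin N → ℂ := fun i k => ∑ p ∈ S ×ˢ S,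
    ch p.1 (ψ i - ψ k) * ((starRingEnd ℂ) (g i (p.1 + p.2)) * g k (p.1 + p.2)) with hA
  have hG2 : (G : ℂ) = ∑ i, ∑ k, (ω i * (starRingEnd ℂ) (ω k)) * A i k := by
    rw [hG, Complex.ofReal_sum, Finset.sum_congr rfl fun p _ =>
      kernel_expand ψ ω g p.1 (p.1 + p.2), Finset.sum_comm]
    refine Finset.sum_congr rfl fun i _ => ?_
    rw [Finset.sum_comm]
    refine Finset.sum_congr rfl fun k _ => ?_
    rw [hA, Finset.mul_sum]
  set W : Fin N → Fin N → ℝ := fun i k =>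
    ∑ θ ∈ O, 2 * y * ‖hat S (θ + (ψ i - ψ k))‖ with hW
  have hterm : ∀ i k, ‖A i k‖ ≤ δ / 4 * x + δ / 4 * x + W i k := by
    intro i k
    have herr2 : ‖A i k - ∑ p ∈ S ×ˢ S, ch p.1 (ψ i - ψ k) *
        tp (Θ i k) (c i k) (p.1 + p.2)‖ ≤ δ / 4 * x := by
      refine le_of_pow_le_pow_left₀ (by norm_num : (2 : ℕ) ≠ 0) (by positivity) ?_
      refine (err_le S hS (ψ i - ψ k) (fun n => (starRingEnd ℂ) (g i n) * g k n) _).trans ?_
      have hE0 : 0 ≤ En S x := Finset.sum_nonneg fun _ _ => sq_nonneg _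
      have h0 : 0 ≤ ∑ n ∈ range (2 * x),
          ‖(starRingEnd ℂ) (g i n) * g k n - tp (Θ i k) (c i k) n‖ ^ 2 :=
        Finset.sum_nonneg fun _ _ => sq_nonneg _
      calc En S x * _ ≤ (K * x) * (ε * x) := mul_le_mul hE (herr i k) h0 (by positivity)
        _ = (K * ε) * x ^ 2 := by ring
        _ ≤ (δ / 4) ^ 2 * x ^ 2 := mul_le_mul_of_nonneg_right hε (by positivity)
        _ = (δ / 4 * x) ^ 2 := by ring
    have hmain : ‖∑ p ∈ S ×ˢ S, ch p.1 (ψ i - ψ k) * tp (Θ i k) (c i k) (p.1 + p.2)‖ ≤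
        δ / 4 * x + W i k := by
      rw [main_term]
      refine (norm_sum_le _ _).trans ?_
      have e1 : ∀ θ ∈ Θ i k, ‖c i k θ * hat S (θ + (ψ i - ψ k)) * hat S θ‖ =
          ‖c i k θ‖ * ‖hat S (θ + (ψ i - ψ k))‖ * ‖hat S θ‖ := fun θ _ => by
        rw [norm_mul, norm_mul]
      rw [Finset.sum_congr rfl e1, ← Finset.sum_filter_add_sum_filter_not (Θ i k) (· ∉ O)]
      refine add_le_add ?_ ?_
      · refine le_of_pow_le_pow_left₀ (by norm_num : (4 : ℕ) ≠ 0) (by positivity) ?_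
        have h1 := new_le ((Θ i k).filter (· ∉ O)) (c i k) S (ψ i - ψ k) (H := H)
          (Y := η * x ^ 2)
          ((Finset.sum_le_sum_of_subset_of_nonneg (Finset.filter_subset _ _)
            fun _ _ _ => sq_nonneg _).trans (hc i k))
          ((Finset.sum_le_sum_of_subset_of_nonneg (Finset.filter_subset _ _)
            fun _ _ _ => by positivity).trans ((hnew1 i k).trans hEH)) (hnew2 i k)
        refine h1.trans ?_
        rw [hH]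
        calc 16 * (53 * K * (x : ℝ) ^ 2) * (η * x ^ 2) =
              (16 * (53 * K) * η) * x ^ 4 := by ring
          _ ≤ (δ / 4) ^ 4 * x ^ 4 := mul_le_mul_of_nonneg_right hη (by positivity)
          _ = (δ / 4 * x) ^ 4 := by ring
      · have h2 : ∀ θ ∈ (Θ i k).filter (fun θ => ¬ θ ∉ O),
            ‖c i k θ‖ * ‖hat S (θ + (ψ i - ψ k))‖ * ‖hat S θ‖ ≤
              2 * y * ‖hat S (θ + (ψ i - ψ k))‖ := by
          intro θ hθ
          have h3 := hc2 i k θ (Finset.mem_filter.1 hθ).1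
          have h4 := hhat θ
          calc ‖c i k θ‖ * ‖hat S (θ + (ψ i - ψ k))‖ * ‖hat S θ‖ ≤
                2 * ‖hat S (θ + (ψ i - ψ k))‖ * y := by gcongr
            _ = _ := by ring
        refine (Finset.sum_le_sum h2).trans ?_
        refine Finset.sum_le_sum_of_subset_of_nonneg ?_ fun _ _ _ => by positivity
        intro θ hθ
        exact not_not.1 (Finset.mem_filter.1 hθ).2
    calc ‖A i k‖ = ‖(A i k - ∑ p ∈ S ×ˢ S, ch p.1 (ψ i - ψ k) *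
          tp (Θ i k) (c i k) (p.1 + p.2)) + ∑ p ∈ S ×ˢ S, ch p.1 (ψ i - ψ k) *
          tp (Θ i k) (c i k) (p.1 + p.2)‖ := by rw [sub_add_cancel]
      _ ≤ _ := norm_add_le _ _
      _ ≤ δ / 4 * x + (δ / 4 * x + W i k) := add_le_add herr2 hmain
      _ = _ := by ring
  -- the old frequencies
  have hWsum : ∑ i, ∑ k, W i k ≤ δ / 4 * x * N ^ 2 := by
    have h1 : ∀ θ ∈ O, ∀ i, ∑ k, ‖hat S (θ + (ψ i - ψ k))‖ ≤ R ^ 3 * y := by
      intro θ hθ i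
      refine le_of_pow_le_pow_left₀ (by norm_num : (4 : ℕ) ≠ 0) (by positivity) ?_
      have h2 := pow_sum_div_card_le_sum_pow (s := (Finset.univ : Finset (Fin N)))
        (f := fun k => ‖hat S (θ + (ψ i - ψ k))‖) (fun _ _ => norm_nonneg _) 3
      rw [Finset.card_univ, Fintype.card_fin, div_le_iff₀ (by positivity)] at h2
      refine h2.trans ?_
      have h3 := ((hold θ hθ i).trans hEH)
      calc (∑ k, ‖hat S (θ + (ψ i - ψ k))‖ ^ 4) * (N : ℝ) ^ 3 ≤ H * (N : ℝ) ^ 3 :=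
            mul_le_mul_of_nonneg_right h3 (by positivity)
        _ = (R ^ 3 * y) ^ 4 := by
            rw [mul_pow, hy4, hN]
            push_cast
            ring
    have h4 : ∑ i, ∑ k, W i k = ∑ θ ∈ O, ∑ i, 2 * y * ∑ k, ‖hat S (θ + (ψ i - ψ k))‖ := by
      simp only [hW]
      have : ∀ i ∈ (Finset.univ : Finset (Fin N)),
          ∑ k, ∑ θ ∈ O, 2 * y * ‖hat S (θ + (ψ i - ψ k))‖ =
          ∑ θ ∈ O, 2 * y * ∑ k, ‖hat S (θ + (ψ i - ψ k))‖ := by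
        intro i _
        rw [Finset.sum_comm]
        refine Finset.sum_congr rfl fun θ _ => ?_
        rw [Finset.mul_sum]
      rw [Finset.sum_congr rfl this, Finset.sum_comm]
    rw [h4]
    have h5 : ∑ θ ∈ O, ∑ i, 2 * y * ∑ k, ‖hat S (θ + (ψ i - ψ k))‖ ≤
        ∑ _θ ∈ O, ∑ _i : Fin N, 2 * y * (R ^ 3 * y) := by
      refine Finset.sum_le_sum fun θ hθ => Finset.sum_le_sum fun i _ => ?_
      exact mul_le_mul_of_nonneg_left (h1 θ hθ i) (by positivity)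
    refine h5.trans ?_
    rw [Finset.sum_const, Finset.sum_const, Finset.card_univ, Fintype.card_fin, nsmul_eq_mul,
      nsmul_eq_mul]
    have h6 : (#O : ℝ) * (N * (2 * y * (R ^ 3 * y))) =
        (8 * #O * √(53 * K)) * (N * R ^ 3 * x / 4) := by
      have : 2 * y * ((R : ℝ) ^ 3 * y) = 2 * R ^ 3 * y ^ 2 := by ring
      rw [this, hy2]
      ring
    rw [h6]
    calc (8 * (#O : ℝ) * √(53 * K)) * (N * R ^ 3 * x / 4) ≤ (δ * R) * (N * R ^ 3 * x / 4) :=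
          mul_le_mul_of_nonneg_right hRO (by positivity)
      _ = δ / 4 * x * N ^ 2 := by
          rw [hN]
          push_cast
          ring
  -- conclusion
  have h7 : G ≤ ∑ i, ∑ k, ‖A i k‖ := by
    have h8 : G ≤ ‖(G : ℂ)‖ := by
      rw [Complex.norm_real]
      exact le_abs_self _
    rw [hG2] at h8
    refine h8.trans ((norm_sum_le _ _).trans (Finset.sum_le_sum fun i _ =>
      (norm_sum_le _ _).trans (Finset.sum_le_sum fun k _ => ?_)))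
    rw [norm_mul, norm_mul, RCLike.norm_conj]
    have h12 : ‖ω i‖ * ‖ω k‖ ≤ 1 := mul_le_one₀ (hω i) (norm_nonneg _) (hω k)
    exact mul_le_of_le_one_left (norm_nonneg _) h12
  have h9 : ∑ i, ∑ k, ‖A i k‖ ≤ ∑ i, ∑ k, (δ / 4 * x + δ / 4 * x + W i k) :=
    Finset.sum_le_sum fun i _ => Finset.sum_le_sum fun k _ => hterm i k
  have h10 : ∑ i : Fin N, ∑ k : Fin N, (δ / 4 * x + δ / 4 * x + W i k) =
      (δ / 4 * x + δ / 4 * x) * N ^ 2 + ∑ i, ∑ k, W i k := by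
    simp_rw [Finset.sum_add_distrib, Finset.sum_const, Finset.card_univ, Fintype.card_fin,
      nsmul_eq_mul]
    ring
  rw [h10] at h9
  have h11 : 0 < δ * x * N ^ 2 := by positivity
  nlinarith

end Pool.Agent.Helper57.PC
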