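import Pool.Agent.Helper57.PC.AP

/-! The finite estimate: few characters of a summand are correlated with functions of the sum that
have a small Wiener norm. -/

namespace Pool.Agent.Helper57.PC

open Finset Filter Topology
open Pool.Agent.Helper25.RC (repF)

/-- finite combinations of characters with sum of absolute values of the coefficients at most `Λ` -/
def Wn (Λ : ℝ) (g : ℕ → ℂ) : Prop :=
  ∃ (ι : Type) (_ : Fintype ι) (c : ι → ℂ) (θ : ι → Fr), ∑ i, ‖c i‖ ≤ Λ ∧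
    ∀ n, g n = ∑ i, c i * ch n (θ i)

lemma norm_coe_le (t : ℝ) : ‖(t : Fr)‖ ≤ |t| := by
  have h := UnitAddCircle.norm_eq (x := t)
  have h2 : ‖(t : Fr)‖ = |t - round t| := h
  rw [h2]
  have h3 := round_le t 0
  simpa using h3

/-- large sieve for separated frequencies -/
lemma sum_hat_le_sep (S : Finset ℕ) {x : ℕ} (hx : 0 < x) (hS : S ⊆ range x) (C : Finset Fr)
    (hC : ∀ θ ∈ C, ∀ θ' ∈ C, θ ≠ θ' → 1 / (x : ℝ) ≤ ‖θ - θ'‖) :
    ∑ θ ∈ C, ‖hat S θ‖ ^ 4 ≤ 53 * x * En S x := by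
  classical
  have h := Pool.Agent.Helper38.RC.energy_large_sieve S hx hS (C.image lift)
    (fun t ht => by
      obtain ⟨θ, _, rfl⟩ := Finset.mem_image.1 ht
      exact lift_mem θ)
    (fun s hs t ht hne => by
      obtain ⟨θ, hθ, rfl⟩ := Finset.mem_image.1 hs
      obtain ⟨θ', hθ', rfl⟩ := Finset.mem_image.1 ht
      refine (hC θ hθ θ' hθ' fun h => hne (by rw [h])).trans ?_
      have h1 := norm_coe_le (lift θ - lift θ')
      have h2 : ((lift θ - lift θ' : ℝ) : Fr) = θ - θ' := by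
        rw [AddCircle.coe_sub, coe_lift, coe_lift]
      rwa [h2] at h1)
  rw [Finset.sum_image (fun _ _ _ _ h => lift_inj h)] at h
  refine le_trans (le_of_eq ?_) h
  refine Finset.sum_congr rfl fun θ _ => ?_
  rw [← hat_coe, coe_lift]

/-- the centers of the large spectrum -/
lemma exists_centers (S : Finset ℕ) {x : ℕ} (hx : 0 < x) (hS : S ⊆ range x) {K y : ℝ}
    (hE : 53 * x * En S x ≤ K) (hy : 0 < y) :
    ∃ C : Finset Fr, (#C : ℝ) * y ^ 4 ≤ K ∧
      ∀ θ, y < ‖hat S θ‖ → ∃ c ∈ C, ‖θ - c‖ < 1 / (x : ℝ) := by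
  classical
  set P : Finset Fr → Prop := fun C => (∀ θ ∈ C, y < ‖hat S θ‖) ∧
    ∀ θ ∈ C, ∀ θ' ∈ C, θ ≠ θ' → 1 / (x : ℝ) ≤ ‖θ - θ'‖ with hP
  have hb : ∀ C, P C → (#C : ℝ) * y ^ 4 ≤ K := by
    intro C hC
    refine le_trans ?_ ((sum_hat_le_sep S hx hS C hC.2).trans hE)
    rw [← nsmul_eq_mul, ← Finset.sum_const]
    exact Finset.sum_le_sum fun θ hθ => pow_le_pow_left₀ hy.le (hC.1 θ hθ).le 4
  set s : Set ℕ := {n | ∃ C, P C ∧ #C = n} with hs
  have hne : s.Nonempty := ⟨0, ∅, ⟨by simp, by simp⟩, rfl⟩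
  obtain ⟨B, hB⟩ := exists_nat_ge (K / y ^ 4)
  have hbd : BddAbove s := by
    refine ⟨B, ?_⟩
    rintro n ⟨C, hC, rfl⟩
    have h1 := hb C hC
    rw [← le_div_iff₀ (by positivity)] at h1
    exact_mod_cast h1.trans hB
  obtain ⟨C, hC, hcard⟩ := Nat.sSup_mem hne hbd
  refine ⟨C, hb C hC, fun θ hθ => ?_⟩
  by_contra hcon
  push Not at hcon
  have hx0 : (0 : ℝ) < x := by exact_mod_cast hx
  have hnot : θ ∉ C := by
    intro h
    have := hcon θ h
    rw [sub_self, norm_zero] at this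
    exact absurd this (not_le.2 (by positivity))
  have hP2 : P (insert θ C) := by
    refine ⟨fun θ' hθ' => ?_, fun θ₁ h₁ θ₂ h₂ hne => ?_⟩
    · rcases Finset.mem_insert.1 hθ' with h | h
      · rwa [h]
      · exact hC.1 θ' h
    · rcases Finset.mem_insert.1 h₁ with h | h <;> rcases Finset.mem_insert.1 h₂ with h' | h'
      · exact absurd (h.trans h'.symm) hne
      · rw [h]
        exact hcon θ₂ h'
      · rw [h', norm_sub_rev]
        exact hcon θ₁ h
      · exact hC.2 θ₁ h θ₂ h' hne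
  have h1 : #(insert θ C) ≤ sSup s := le_csSup hbd ⟨_, hP2, rfl⟩
  rw [Finset.card_insert_of_notMem hnot, hcard] at h1
  omega

/-- the main term for indexed frequencies -/
lemma main_term' (S : Finset ℕ) (η : Fr) {ι : Type} [Fintype ι] (c : ι → ℂ) (θ : ι → Fr) :
    ∑ p ∈ S ×ˢ S, ch p.1 η * ∑ i, c i * ch (p.1 + p.2) (θ i) =
      ∑ i, c i * hat S (θ i + η) * hat S (θ i) := by
  simp_rw [Finset.mul_sum]
  rw [Finset.sum_comm]
  refine Finset.sum_congr rfl fun i _ => ?_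
  unfold hat
  rw [mul_assoc, Finset.sum_mul_sum, ← Finset.sum_product', Finset.mul_sum]
  refine Finset.sum_congr rfl fun p _ => ?_
  rw [ch_add, ch_nat_add]
  ring

/-- The finite estimate. -/
lemma keyF (S : Finset ℕ) {x : ℕ} (hx : 0 < x) (hS : S ⊆ range x) {K δ ε Λ : ℝ} (hK : 0 < K)
    (hδ : 0 < δ) (hΛ : 0 < Λ) (hE : En S x ≤ K * x) {N : ℕ} (ψ : Fin N → Fr)
    (hsep : ∀ i k, i ≠ k → 4 / (x : ℝ) ≤ ‖ψ i - ψ k‖) (g : Fin N → ℕ → ℂ)
    (hg : ∀ i n, ‖g i n‖ ≤ 1) (ω : Fin N → ℂ) (hω : ∀ i, ‖ω i‖ ≤ 1)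
    (hG1 : δ * x * N ^ 2 ≤ ∑ p ∈ S ×ˢ S,
        ‖∑ i, ω i * (ch p.1 (ψ i) * (starRingEnd ℂ) (g i (p.1 + p.2)))‖ ^ 2)
    (u : Fin N → Fin N → ℕ → ℂ) (hu : ∀ i k, Wn Λ (u i k))
    (herr : ∀ i k, ∑ n ∈ range (2 * x),
      ‖(starRingEnd ℂ) (g i n) * g k n - u i k n‖ ^ 2 ≤ ε * x)
    (hε : K * ε ≤ (δ / 4) ^ 2) :
    N * δ ^ 9 ≤ 2 * 256 ^ 2 * 53 ^ 4 * K ^ 4 * √(2 * K) * Λ ^ 8 := by
  classical
  rcases Nat.eq_zero_or_pos N with hN0 | hN0
  · subst hN0
    simp only [Nat.cast_zero, zero_mul]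
    positivity
  have hx0 : (0 : ℝ) < x := by exact_mod_cast hx
  have hN : (0 : ℝ) < N := by exact_mod_cast hN0
  have hEH : 53 * x * En S x ≤ 53 * K * x ^ 2 := by nlinarith
  -- the fourth root
  set z : ℝ := √(√(53 * K)) with hz
  have hz0 : 0 < z := Real.sqrt_pos.2 (Real.sqrt_pos.2 (by positivity))
  have hz4 : z ^ 4 = 53 * K := by
    rw [show (4 : ℕ) = 2 * 2 by norm_num, pow_mul, hz, Real.sq_sqrt (Real.sqrt_nonneg _),
      Real.sq_sqrt (by positivity)]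
  have hsx : √(x : ℝ) ^ 4 = (x : ℝ) ^ 2 := by
    rw [show (4 : ℕ) = 2 * 2 by norm_num, pow_mul, Real.sq_sqrt hx0.le]
  have hhat : ∀ θ, ‖hat S θ‖ ≤ z * √x := by
    intro θ
    refine le_of_pow_le_pow_left₀ (by norm_num : (4 : ℕ) ≠ 0) (by positivity) ?_
    rw [mul_pow, hz4, hsx]
    exact (hat_le S hx hS θ).trans hEH
  set η : ℝ := δ / (4 * Λ * z) with hη
  have hη0 : 0 < η := by positivity
  obtain ⟨C, hCc, hC⟩ := exists_centers S hx hS hEH (y := η * √x) (by positivity)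
  rw [mul_pow, hsx] at hCc
  have hCc' : (#C : ℝ) * η ^ 4 ≤ 53 * K := by
    have : (#C : ℝ) * η ^ 4 * x ^ 2 ≤ 53 * K * x ^ 2 := by linarith
    exact le_of_mul_le_mul_right this (by positivity)
  -- the terms
  set G : ℝ := ∑ p ∈ S ×ˢ S,
    ‖∑ i, ω i * (ch p.1 (ψ i) * (starRingEnd ℂ) (g i (p.1 + p.2)))‖ ^ 2 with hG
  set A : Fin N → Fin N → ℂ := fun i k => ∑ p ∈ S ×ˢ S,
    ch p.1 (ψ i - ψ k) * ((starRingEnd ℂ) (g i (p.1 + p.2)) * g k (p.1 + p.2)) with hA
  have hG2 : (G : ℂ) = ∑ i, ∑ k, (ω i * (starRingEnd ℂ) (ω k)) * A i k := by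
    rw [hG, Complex.ofReal_sum, Finset.sum_congr rfl fun p _ =>
      kernel_expand ψ ω g p.1 (p.1 + p.2), Finset.sum_comm]
    refine Finset.sum_congr rfl fun i _ => ?_
    rw [Finset.sum_comm]
    refine Finset.sum_congr rfl fun k _ => ?_
    rw [hA, Finset.mul_sum]
  have hcard := card_sq_le' S hS hK hE
  have hAtriv : ∀ i k, ‖A i k‖ ≤ √(2 * K) * x := by
    intro i k
    refine le_trans ?_ hcard
    refine (norm_sum_le _ _).trans ?_
    have h1 : ∀ p ∈ S ×ˢ S, ‖ch p.1 (ψ i - ψ k) *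
        ((starRingEnd ℂ) (g i (p.1 + p.2)) * g k (p.1 + p.2))‖ ≤ 1 := by
      intro p _
      rw [norm_mul, norm_ch, one_mul, norm_mul, RCLike.norm_conj]
      exact mul_le_one₀ (hg _ _) (norm_nonneg _) (hg _ _)
    refine (Finset.sum_le_sum h1).trans (le_of_eq ?_)
    rw [Finset.sum_const, Finset.card_product, nsmul_eq_mul, mul_one]
    push_cast
    ring
  -- bad pairs
  set Bad : Finset (Fin N × Fin N) := {q | ∃ θ, η * √x < ‖hat S θ‖ ∧
    η * √x < ‖hat S (θ + (ψ q.1 - ψ q.2))‖} with hBad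
  have hBadc : (#Bad : ℝ) ≤ N * (#C : ℝ) ^ 2 := by
    have hch : ∀ q ∈ Bad, ∃ c ∈ C, ∃ c' ∈ C, ‖(ψ q.1 - ψ q.2) - (c' - c)‖ < 2 / (x : ℝ) := by
      intro q hq
      rw [hBad, Finset.mem_filter] at hq
      obtain ⟨θ, h1, h2⟩ := hq.2
      obtain ⟨c, hc, h3⟩ := hC θ h1
      obtain ⟨c', hc', h4⟩ := hC _ h2
      refine ⟨c, hc, c', hc', ?_⟩
      have e : (ψ q.1 - ψ q.2) - (c' - c) = (θ + (ψ q.1 - ψ q.2) - c') - (θ - c) := by abel
      rw [e]
      refine (norm_sub_le _ _).trans_lt ?_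
      have : 2 / (x : ℝ) = 1 / x + 1 / x := by ring
      rw [this]
      exact add_lt_add h4 h3
    choose! c hc c' hc' hcc using hch
    have h1 : #Bad ≤ #((Finset.univ : Finset (Fin N)) ×ˢ (C ×ˢ C)) := by
      refine Finset.card_le_card_of_injOn (fun q => (q.1, (c q, c' q))) ?_ ?_
      · intro q hq
        rw [Finset.mem_coe, Finset.mem_product, Finset.mem_product]
        exact ⟨Finset.mem_univ _, hc q hq, hc' q hq⟩
      · intro q hq q' hq' he
        rw [Prod.mk.injEq, Prod.mk.injEq] at he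
        obtain ⟨he1, he2, he3⟩ := he
        by_contra hne
        have hne2 : q.2 ≠ q'.2 := fun h => hne (Prod.ext he1 h)
        have h2 := hsep q.2 q'.2 hne2
        have h3 := hcc q hq
        have h4 := hcc q' hq'
        rw [← he1, ← he2, ← he3] at h4
        have e : ψ q.2 - ψ q'.2 = ((ψ q.1 - ψ q'.2) - (c' q - c q)) -
            ((ψ q.1 - ψ q.2) - (c' q - c q)) := by abel
        rw [e] at h2
        have h5 := norm_sub_le ((ψ q.1 - ψ q'.2) - (c' q - c q))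
            ((ψ q.1 - ψ q.2) - (c' q - c q))
        have : 4 / (x : ℝ) = 2 / x + 2 / x := by ring
        linarith
    rw [Finset.card_product, Finset.card_product, Finset.card_univ, Fintype.card_fin] at h1
    have h2 : (#Bad : ℝ) ≤ ((N * (#C * #C) : ℕ) : ℝ) := Nat.cast_le.2 h1
    push_cast at h2
    linarith
  -- good pairs
  have hgood : ∀ i k, (i, k) ∉ Bad → ‖A i k‖ ≤ δ / 4 * x + δ / 4 * x := by
    intro i k hik
    obtain ⟨ι, hι, c, θ, hc, hθ⟩ := hu i k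
    have herr2 : ‖A i k - ∑ p ∈ S ×ˢ S, ch p.1 (ψ i - ψ k) * u i k (p.1 + p.2)‖ ≤ δ / 4 * x := by
      refine le_of_pow_le_pow_left₀ (by norm_num : (2 : ℕ) ≠ 0) (by positivity) ?_
      refine (err_le S hS (ψ i - ψ k) (fun n => (starRingEnd ℂ) (g i n) * g k n) _).trans ?_
      have hE0 : 0 ≤ En S x := Finset.sum_nonneg fun _ _ => sq_nonneg _
      have h0 : 0 ≤ ∑ n ∈ range (2 * x), ‖(starRingEnd ℂ) (g i n) * g k n - u i k n‖ ^ 2 :=
        Finset.sum_nonneg fun _ _ => sq_nonneg _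
      calc En S x * _ ≤ (K * x) * (ε * x) := mul_le_mul hE (herr i k) h0 (by positivity)
        _ = (K * ε) * x ^ 2 := by ring
        _ ≤ (δ / 4) ^ 2 * x ^ 2 := mul_le_mul_of_nonneg_right hε (by positivity)
        _ = (δ / 4 * x) ^ 2 := by ring
    have hmain : ‖∑ p ∈ S ×ˢ S, ch p.1 (ψ i - ψ k) * u i k (p.1 + p.2)‖ ≤ δ / 4 * x := by
      simp_rw [hθ]
      rw [main_term']
      refine (norm_sum_le _ _).trans ?_
      have h1 : ∀ j ∈ (Finset.univ : Finset ι),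
          ‖c j * hat S (θ j + (ψ i - ψ k)) * hat S (θ j)‖ ≤ ‖c j‖ * (η * z * x) := by
        intro j _
        rw [norm_mul, norm_mul, mul_assoc]
        refine mul_le_mul_of_nonneg_left ?_ (norm_nonneg _)
        have h2 : ‖hat S (θ j)‖ ≤ η * √x ∨ ‖hat S (θ j + (ψ i - ψ k))‖ ≤ η * √x := by
          by_contra hcon
          push Not at hcon
          apply hik
          rw [hBad, Finset.mem_filter]
          exact ⟨Finset.mem_univ _, θ j, hcon.1, hcon.2⟩
        have h3 : η * z * x = (η * √x) * (z * √x) := by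
          have := Real.mul_self_sqrt hx0.le
          calc η * z * x = η * z * (√x * √x) := by rw [this]
            _ = _ := by ring
        rw [h3]
        rcases h2 with h2 | h2
        · rw [mul_comm ‖hat S (θ j + (ψ i - ψ k))‖]
          exact mul_le_mul h2 (hhat _) (norm_nonneg _) (by positivity)
        · exact mul_le_mul h2 (hhat _) (norm_nonneg _) (by positivity)
      refine (Finset.sum_le_sum h1).trans ?_
      rw [← Finset.sum_mul]
      calc (∑ i, ‖c i‖) * (η * z * x) ≤ Λ * (η * z * x) :=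
            mul_le_mul_of_nonneg_right hc (by positivity)
        _ = δ / 4 * x := by
            rw [hη]
            field_simp
    calc ‖A i k‖ = ‖(A i k - ∑ p ∈ S ×ˢ S, ch p.1 (ψ i - ψ k) * u i k (p.1 + p.2)) +
          ∑ p ∈ S ×ˢ S, ch p.1 (ψ i - ψ k) * u i k (p.1 + p.2)‖ := by rw [sub_add_cancel]
      _ ≤ _ := norm_add_le _ _
      _ ≤ _ := add_le_add herr2 hmain
  -- conclusion
  have h7 : G ≤ ∑ i, ∑ k, ‖A i k‖ := by
    have h8 : G ≤ ‖(G : ℂ)‖ := by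
      rw [Complex.norm_real]
      exact le_abs_self _
    rw [hG2] at h8
    refine h8.trans ((norm_sum_le _ _).trans (Finset.sum_le_sum fun i _ =>
      (norm_sum_le _ _).trans (Finset.sum_le_sum fun k _ => ?_)))
    rw [norm_mul, norm_mul, RCLike.norm_conj]
    have h12 : ‖ω i‖ * ‖ω k‖ ≤ 1 := mul_le_one₀ (hω i) (norm_nonneg _) (hω k)
    exact mul_le_of_le_one_left (norm_nonneg _) h12
  have h9 : ∑ i, ∑ k, ‖A i k‖ ≤ ∑ i : Fin N, ∑ k : Fin N,
      (δ / 2 * x + if (i, k) ∈ Bad then √(2 * K) * x else 0) := by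
    refine Finset.sum_le_sum fun i _ => Finset.sum_le_sum fun k _ => ?_
    split_ifs with h
    · have := hAtriv i k
      have : 0 ≤ δ / 2 * x := by positivity
      linarith
    · have := hgood i k h
      linarith
  have h10 : ∑ i : Fin N, ∑ k : Fin N, (δ / 2 * x + if (i, k) ∈ Bad then √(2 * K) * x else 0) =
      N ^ 2 * (δ / 2 * x) + #Bad * (√(2 * K) * x) := by
    rw [← Finset.sum_product' (f := fun i k =>
      (δ / 2 * x + if (i, k) ∈ Bad then √(2 * K) * x else 0)), Finset.sum_add_distrib,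
      Finset.sum_const, ← Finset.sum_filter, Finset.sum_const, nsmul_eq_mul, nsmul_eq_mul]
    congr 1
    · congr 1
      rw [Finset.card_product, Finset.card_univ, Fintype.card_fin]
      push_cast
      ring
    · congr 2
      congr 1
      ext q
      simp
  rw [h10] at h9
  have hK2 : 0 ≤ √(2 * K) := Real.sqrt_nonneg _
  have h11 : δ * x * N ^ 2 ≤ N ^ 2 * (δ / 2 * x) + N * (#C : ℝ) ^ 2 * (√(2 * K) * x) := by
    have : (#Bad : ℝ) * (√(2 * K) * x) ≤ N * (#C : ℝ) ^ 2 * (√(2 * K) * x) :=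
      mul_le_mul_of_nonneg_right hBadc (by positivity)
    linarith
  have h12 : N * δ ≤ 2 * (#C : ℝ) ^ 2 * √(2 * K) := by
    have : (N * δ) * (N * x / 2) ≤ (2 * (#C : ℝ) ^ 2 * √(2 * K)) * (N * x / 2) := by nlinarith
    exact le_of_mul_le_mul_right this (by positivity)
  have h13 : η ^ 8 = δ ^ 8 / (256 ^ 2 * Λ ^ 8 * (53 * K) ^ 2) := by
    rw [hη, div_pow, ← hz4]
    congr 1
    ring
  have h14 : ((#C : ℝ) * η ^ 4) ^ 2 ≤ (53 * K) ^ 2 := pow_le_pow_left₀ (by positivity) hCc' 2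
  have h15 : N * δ * η ^ 8 ≤ 2 * (53 * K) ^ 2 * √(2 * K) := by
    calc N * δ * η ^ 8 ≤ 2 * (#C : ℝ) ^ 2 * √(2 * K) * η ^ 8 :=
          mul_le_mul_of_nonneg_right h12 (by positivity)
      _ = 2 * ((#C : ℝ) * η ^ 4) ^ 2 * √(2 * K) := by ring
      _ ≤ _ := by
          refine mul_le_mul_of_nonneg_right ?_ hK2
          linarith
  rw [h13, mul_div_assoc', div_le_iff₀ (by positivity)] at h15
  calc N * δ ^ 9 = N * δ * δ ^ 8 := by ring
    _ ≤ _ := h15
    _ = _ := by ring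

end Pool.Agent.Helper57.PC
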